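import Pool.Agent.helper4.QX.SpecE
import Pool.Agent.helper62.QU.All
import Pool.Agent.helper62.RP.Top

set_option autoImplicit false

/-!
# MP_07c750, project QX, theorem T1: covers with windows `[0, n^c]` and strong convergence

The structure is that of `Pool/Agent/helper52/QX/FBE.lean`.
-/

open scoped MatrixGroups ContDiff Topology UpperHalfPlane
open UpperHalfPlane MeasureTheory ProbabilityTheory Filter Set Polynomial
open Pool.Agent.QU Pool.Agent.RP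

namespace Pool.Agent.QX

/-- covers with large windows, strongly convergent -/
def FCV_stmt : Prop := ∃ c : ℝ, 0 < c ∧ ∀ Γ : Subgroup SL(2, ℝ), SurfaceGroup Γ → ∀ g : ℕ, 2 ≤ g →
  Nonempty (Γ ≃* SurfGrp g) →
  ∃ σ : ∀ n : ℕ, Γ →* Equiv.Perm (Fin n), (∀ n i j, ∃ γ, σ n γ i = j) ∧
    StrongLimPerm (fun n => n) σ ∧
    ∀ h : ℍ → ℝ, IsTest Γ h → ∀ ε : ℝ, 0 < ε → ∀ᶠ n in atTop,
      ∀ (μ : ℝ) (φ : ℍ → Fin n → ℂ), 0 ≤ μ → μ ≤ (n : ℝ) ^ c →
        IsNewEigenfunction (σ n) μ φ → Equidist Γ h (fun z => ∑ i, ‖φ z i‖ ^ 2) ε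

/-! ### Selection -/

/-- countably many properties, each of which holds for most elements -/
theorem FCV_sel {ι : Type} [Countable ι] (Ω : ℕ → Type) [∀ N, Fintype (Ω N)] [∀ N, Nonempty (Ω N)]
    (P : ι → ∀ N, Ω N → Prop)
    (h : ∀ i, ∀ η : ℝ, 0 < η → ∃ N₀ : ℕ, ∀ N : ℕ, N₀ ≤ N → ∃ B : Finset (Ω N),
      (B.card : ℝ) ≤ η * (Fintype.card (Ω N) : ℝ) ∧ ∀ x, x ∉ B → P i N x) :
    ∃ x : ∀ N, Ω N, ∀ i, ∃ N₀ : ℕ, ∀ N : ℕ, N₀ ≤ N → P i N (x N) := by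
  classical
  rcases isEmpty_or_nonempty ι with hι | hι
  · exact ⟨fun N => Classical.arbitrary _, fun i => (hι.false i).elim⟩
  obtain ⟨e, he⟩ := exists_surjective_nat ι
  have h1 : ∀ n : ℕ, ∃ N₀ : ℕ, ∀ N : ℕ, N₀ ≤ N → ∃ B : Finset (Ω N),
      (B.card : ℝ) ≤ (1 / 2 : ℝ) ^ (n + 2) * (Fintype.card (Ω N) : ℝ) ∧ ∀ x, x ∉ B → P (e n) N x :=
    fun n => h (e n) _ (by positivity)
  choose N₀ hN₀ using h1
  have h2 : ∀ N : ℕ, ∃ x : Ω N, ∀ n : ℕ, n ≤ N → N₀ n ≤ N → P (e n) N x := by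
    intro N
    have h3 : ∀ n : ℕ, ∃ B : Finset (Ω N),
        (B.card : ℝ) ≤ (1 / 2 : ℝ) ^ (n + 2) * (Fintype.card (Ω N) : ℝ) ∧
          ∀ x, x ∉ B → N₀ n ≤ N → P (e n) N x := by
      intro n
      by_cases hn : N₀ n ≤ N
      · obtain ⟨B, b1, b2⟩ := hN₀ n N hn
        exact ⟨B, b1, fun x hx _ => b2 x hx⟩
      · exact ⟨∅, by
          rw [Finset.card_empty, Nat.cast_zero]
          positivity, fun x _ h' => absurd h' hn⟩
    choose B b1 b2 using h3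
    have hsum : HasSum (fun n : ℕ => (1 / 2 : ℝ) ^ (n + 2)) (1 / 2) := by
      have := (hasSum_geometric_of_lt_one (r := (1 / 2 : ℝ)) (by norm_num) (by norm_num)).mul_left
        ((1 / 2 : ℝ) ^ 2)
      have e1 : (1 / 2 : ℝ) ^ 2 * (1 - 1 / 2)⁻¹ = 1 / 2 := by norm_num
      rw [e1] at this
      refine this.congr_fun ?_
      intro n
      rw [pow_add]
      ring
    have hcard : (((Finset.range (N + 1)).biUnion B).card : ℝ) < (Fintype.card (Ω N) : ℝ) := by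
      have h5 : (((Finset.range (N + 1)).biUnion B).card : ℝ) ≤
          ∑ i ∈ Finset.range (N + 1), ((B i).card : ℝ) := by
        exact_mod_cast Finset.card_biUnion_le
      have h6 : ∑ i ∈ Finset.range (N + 1), ((B i).card : ℝ) ≤
          (∑ i ∈ Finset.range (N + 1), (1 / 2 : ℝ) ^ (i + 2)) * (Fintype.card (Ω N) : ℝ) := by
        rw [Finset.sum_mul]
        exact Finset.sum_le_sum fun i _ => b1 i
      have h7 : (∑ i ∈ Finset.range (N + 1), (1 / 2 : ℝ) ^ (i + 2)) ≤ 1 / 2 := by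
        exact (hsum.summable.sum_le_tsum _ fun i _ => by positivity).trans hsum.tsum_eq.le
      have h8 : (0 : ℝ) < (Fintype.card (Ω N) : ℝ) := by
        exact_mod_cast Fintype.card_pos
      have h9 := mul_le_mul_of_nonneg_right h7 h8.le
      linarith
    have hex : ∃ x, x ∉ (Finset.range (N + 1)).biUnion B := by
      by_contra hc
      push Not at hc
      have h5 : (Finset.range (N + 1)).biUnion B = Finset.univ := Finset.eq_univ_iff_forall.2 hc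
      rw [h5, Finset.card_univ] at hcard
      exact lt_irrefl _ hcard
    obtain ⟨x, hx⟩ := hex
    refine ⟨x, fun n hn hN => b2 n x (fun hc => hx ?_) hN⟩
    exact Finset.mem_biUnion.2 ⟨n, Finset.mem_range.2 (by omega), hc⟩
  choose x hx using h2
  refine ⟨x, fun i => ?_⟩
  obtain ⟨n, rfl⟩ := he i
  exact ⟨max n (N₀ n), fun N hN => hx N n ((le_max_left _ _).trans hN) ((le_max_right _ _).trans hN)⟩

/-! ### Functions -/

/-- both signs, with the mean value -/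
def FCV_Good (Γ : Subgroup SL(2, ℝ)) (F : Set ℍ) (h : ℍ → ℝ) (ε c : ℝ) (N : ℕ)
    (σ : Γ →* Equiv.Perm (Fin N)) : Prop :=
  ∀ (μ : ℝ) (φ : ℍ → Fin N → ℂ), 0 ≤ μ → μ ≤ (N : ℝ) ^ c → IsNewEigenfunction σ μ φ →
      |(∫ z in F, h z * ∑ i, ‖φ z i‖ ^ 2) -
          (∫ z in F, h z) / (volume F).toReal * ∫ z in F, ∑ i, ‖φ z i‖ ^ 2| ≤
        ε * ∫ z in F, ∑ i, ‖φ z i‖ ^ 2

theorem FCV_int {Γ : Subgroup SL(2, ℝ)} {F : Set ℍ} (hΓ : SurfaceGroup Γ) (hF : NiceDom Γ F)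
    {g : ℍ → ℝ} (hg : Inv Γ g) : IntegrableOn g F volume := by
  obtain ⟨m, hm⟩ := (A_BDD Γ F g hΓ hF hg).1
  obtain ⟨-, -, -, hfin, -, -⟩ := A_DOB Γ F hΓ hF
  haveI : IsFiniteMeasure (volume.restrict F : Measure ℍ) := ⟨by
    rw [Measure.restrict_apply_univ]; exact hfin⟩
  refine Integrable.of_bound hg.1.aestronglyMeasurable m ?_
  exact Filter.Eventually.of_forall fun z => by rw [Real.norm_eq_abs]; exact hm z

theorem FCV_inv_sq {Γ : Subgroup SL(2, ℝ)} {N : ℕ} {σ : Γ →* Equiv.Perm (Fin N)} {μ : ℝ}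
    {φ : ℍ → Fin N → ℂ} (hφ : IsNewEigenfunction σ μ φ) :
    Inv Γ (fun z => ∑ i, ‖φ z i‖ ^ 2) := by
  obtain ⟨h1, h2, -, -⟩ := hφ
  have hc : ∀ i, Continuous (fun z => φ z i) := fun i =>
    (CA1_cont (fun z => φ z i)).1 ((h1 i).of_le (by exact_mod_cast zero_le))
  refine ⟨continuous_finsetSum _ fun i _ => ((hc i).norm).pow 2, fun γ z => ?_⟩
  show ∑ i, ‖φ (γ • z) i‖ ^ 2 = ∑ i, ‖φ z i‖ ^ 2
  rw [← Equiv.sum_comp (σ γ) (fun i => ‖φ (γ • z) i‖ ^ 2)]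
  exact Finset.sum_congr rfl fun i _ => by rw [h2 γ z i]

theorem FCV_inv_mul {Γ : Subgroup SL(2, ℝ)} {f g : ℍ → ℝ} (hf : Inv Γ f) (hg : Inv Γ g) :
    Inv Γ (fun z => f z * g z) :=
  ⟨hf.1.mul hg.1, fun γ z => by simp only [hf.2 γ z, hg.2 γ z]⟩

/-- `N^{-t}` is eventually small -/
theorem FCV_small {t : ℝ} (ht : 0 < t) {η : ℝ} (hη : 0 < η) :
    ∃ N₀ : ℕ, ∀ N : ℕ, N₀ ≤ N → (N : ℝ) ^ (-t) ≤ η := by
  have hlim : Tendsto (fun N : ℕ => (N : ℝ) ^ (-t)) atTop (𝓝 0) :=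
    (tendsto_rpow_neg_atTop ht).comp tendsto_natCast_atTop_atTop
  obtain ⟨N₀, h⟩ := Filter.eventually_atTop.1 (hlim.eventually_lt_const hη)
  exact ⟨N₀, fun N hN => (h N hN).le⟩

/-- the random set for a function and both signs -/
theorem FCV_stepA {Γ : Subgroup SL(2, ℝ)} (hΓ : SurfaceGroup Γ) {F : Set ℍ}
    (hF : NiceDom Γ F) (c t : ℝ) (ht : 0 < t) (θ : ℕ → (Γ →* F2))
    (hP : ∀ (h : ℍ → ℝ), Inv Γ h → (∫ z in F, h z) = 0 → ∀ ε : ℝ, 0 < ε →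
      ∃ N₀ : ℕ, ∀ N : ℕ, N₀ ≤ N → ∃ B : Finset (Fin 2 → Equiv.Perm (Fin N)),
      (B.card : ℝ) ≤ (N : ℝ) ^ (-t) * (N.factorial : ℝ) ^ 2 ∧ ∀ σ, σ ∉ B →
        GoodP Γ F h ε c N ((FreeGroup.lift σ).comp (θ N)))
    (h : ℍ → ℝ) (hh : Inv Γ h) (ε η : ℝ) (hε : 0 < ε) (hη : 0 < η) :
    ∃ N₀ : ℕ, ∀ N : ℕ, N₀ ≤ N → ∃ B : Finset (Fin 2 → Equiv.Perm (Fin N)),
        (B.card : ℝ) ≤ η * (N.factorial : ℝ) ^ 2 ∧ ∀ σ, σ ∉ B →
          FCV_Good Γ F h ε c N ((FreeGroup.lift σ).comp (θ N)) := by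
  classical
  obtain ⟨-, -, hpos, hfin, -, -⟩ := A_DOB Γ F hΓ hF
  haveI : IsFiniteMeasure (volume.restrict F : Measure ℍ) := ⟨by
    rw [Measure.restrict_apply_univ]; exact hfin⟩
  have hv : 0 < (volume F).toReal := ENNReal.toReal_pos hpos.ne' hfin.ne
  set m : ℝ := (∫ z in F, h z) / (volume F).toReal with hm
  have hi := FCV_int hΓ hF hh
  have hconst : (∫ _z in F, m) = ∫ z in F, h z := by
    rw [integral_const, smul_eq_mul, measureReal_restrict_apply_univ, measureReal_def, hm]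
    field_simp
  have hmi : IntegrableOn (fun _ : ℍ => m) F volume := integrable_const m
  have i1 : Inv Γ (fun z => h z - m) := ⟨hh.1.sub continuous_const, fun γ z => by
    simp only [hh.2 γ z]⟩
  have i2 : Inv Γ (fun z => m - h z) := ⟨continuous_const.sub hh.1, fun γ z => by
    simp only [hh.2 γ z]⟩
  have z1 : (∫ z in F, (h z - m)) = 0 := by
    rw [integral_sub hi hmi, hconst, sub_self]
  have z2 : (∫ z in F, (m - h z)) = 0 := by
    rw [integral_sub hmi hi, hconst, sub_self]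
  obtain ⟨N1, hN1⟩ := hP _ i1 z1 ε hε
  obtain ⟨N2, hN2⟩ := hP _ i2 z2 ε hε
  obtain ⟨N3, hN3⟩ := FCV_small ht (half_pos hη)
  refine ⟨max N1 (max N2 N3), fun N hN => ?_⟩
  have g1 : N1 ≤ N := (le_max_left _ _).trans hN
  have g2 : N2 ≤ N := ((le_max_left _ _).trans (le_max_right _ _)).trans hN
  have g3 : N3 ≤ N := ((le_max_right _ _).trans (le_max_right _ _)).trans hN
  obtain ⟨B1, hB1, hG1⟩ := hN1 N g1
  obtain ⟨B2, hB2, hG2⟩ := hN2 N g2
  have hfac : (0 : ℝ) < (N.factorial : ℝ) ^ 2 := by positivity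
  have hsm := mul_le_mul_of_nonneg_right (hN3 N g3) hfac.le
  refine ⟨B1 ∪ B2, ?_, ?_⟩
  · have h1 : ((B1 ∪ B2).card : ℝ) ≤ (B1.card : ℝ) + B2.card := by
      exact_mod_cast Finset.card_union_le B1 B2
    nlinarith
  · intro x hx μ φ hμ0 hμ hφ
    have hx1 : x ∉ B1 := fun hc => hx (Finset.mem_union_left _ hc)
    have hx2 : x ∉ B2 := fun hc => hx (Finset.mem_union_right _ hc)
    have k1 := hG1 x hx1 μ φ hμ0 hμ hφ
    have k2 := hG2 x hx2 μ φ hμ0 hμ hφ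
    have isq := FCV_inv_sq hφ
    have j1 := FCV_int hΓ hF isq
    have j2 := FCV_int hΓ hF (FCV_inv_mul hh isq)
    have j3 : IntegrableOn (fun z => m * ∑ i, ‖φ z i‖ ^ 2) F volume := j1.const_mul m
    have e1 : (∫ z in F, (h z - m) * ∑ i, ‖φ z i‖ ^ 2) =
        (∫ z in F, h z * ∑ i, ‖φ z i‖ ^ 2) - m * ∫ z in F, ∑ i, ‖φ z i‖ ^ 2 := by
      rw [← integral_const_mul, ← integral_sub j2 j3]
      refine integral_congr_ae (Filter.Eventually.of_forall fun z => ?_)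
      simp only
      ring
    have e2 : (∫ z in F, (m - h z) * ∑ i, ‖φ z i‖ ^ 2) =
        -((∫ z in F, h z * ∑ i, ‖φ z i‖ ^ 2) - m * ∫ z in F, ∑ i, ‖φ z i‖ ^ 2) := by
      rw [← e1, ← integral_neg]
      refine integral_congr_ae (Filter.Eventually.of_forall fun z => ?_)
      simp only
      ring
    rw [e1] at k1
    rw [e2] at k2
    rw [abs_le]
    constructor
    · linarith
    · exact k1

/-! ### Elements of the group algebra -/

/-- the property for an element -/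
def FCV_El {G : Type} [Group G] {N : ℕ} (b : MonoidAlgebra ℂ G) (ε : ℝ)
    (σ : G →* Equiv.Perm (Fin N)) : Prop :=
  ∀ v : EuclideanSpace ℂ (Fin N), ∑ i, v i = 0 →
    ‖rep (permRep σ) b v‖ ≤ (regNorm b + ε) * ‖v‖

theorem FCV_stepB {G : Type} [Group G] (t : ℝ) (ht : 0 < t) (θ : ℕ → (G →* F2))
    (hP : ∀ (a : MonoidAlgebra ℂ G) (ε : ℝ), adj a = a → 0 < ε → ∃ N₀ : ℕ, ∀ N : ℕ, N₀ ≤ N →
      ∃ B : Finset (Fin 2 → Equiv.Perm (Fin N)),
        (B.card : ℝ) ≤ (N : ℝ) ^ (-t) * (N.factorial : ℝ) ^ 2 ∧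
      ∀ σ, σ ∉ B → ∀ v : EuclideanSpace ℂ (Fin N), ∑ i, v i = 0 →
        ‖rep (permRep ((FreeGroup.lift σ).comp (θ N))) a v‖ ≤ (regNorm a + ε) * ‖v‖)
    (b : MonoidAlgebra ℂ G) (ε η : ℝ) (hε : 0 < ε) (hη : 0 < η) :
    ∃ N₀ : ℕ, ∀ N : ℕ, N₀ ≤ N → ∃ B : Finset (Fin 2 → Equiv.Perm (Fin N)),
        (B.card : ℝ) ≤ η * (N.factorial : ℝ) ^ 2 ∧ ∀ σ, σ ∉ B →
          FCV_El b ε ((FreeGroup.lift σ).comp (θ N)) := by
  have hadj : adj (adj b * b) = adj b * b := by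
    rw [(A_ADJ G (adj b) b).2.2.1, (A_ADJ G b b).2.1]
  obtain ⟨N1, hN1⟩ := hP (adj b * b) (ε ^ 2) hadj (by positivity)
  obtain ⟨N3, hN3⟩ := FCV_small ht hη
  refine ⟨max N1 N3, fun N hN => ?_⟩
  have g1 : N1 ≤ N := (le_max_left _ _).trans hN
  have g3 : N3 ≤ N := (le_max_right _ _).trans hN
  obtain ⟨B, hB, hG⟩ := hN1 N g1
  have hfac : (0 : ℝ) < (N.factorial : ℝ) ^ 2 := by positivity
  refine ⟨B, hB.trans (mul_le_mul_of_nonneg_right (hN3 N g3) hfac.le), fun σ hσ v hv => ?_⟩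
  have h1 := hG σ hσ v hv
  have h2 := (A_REP G _ (permRep ((FreeGroup.lift σ).comp (θ N))) b b v v).2.2.2.2.2.2
  have h3 : regNorm (adj b * b) ≤ regNorm b * regNorm b := by
    have h4 := (A_RNB G (adj b) b).2.2.2.2.2.2.1
    rwa [(A_ADJ G b b).2.2.2.1] at h4
  have hR := (A_RNB G b b).1
  have hv0 : 0 ≤ ‖v‖ := norm_nonneg v
  have h5 : ‖rep (permRep ((FreeGroup.lift σ).comp (θ N))) b v‖ ^ 2 ≤
      ((regNorm b + ε) * ‖v‖) ^ 2 := by
    refine h2.trans ((mul_le_mul_of_nonneg_right h1 hv0).trans ?_)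
    have h6 : (regNorm (adj b * b) + ε ^ 2) ≤ (regNorm b + ε) ^ 2 := by nlinarith
    calc (regNorm (adj b * b) + ε ^ 2) * ‖v‖ * ‖v‖ = (regNorm (adj b * b) + ε ^ 2) * (‖v‖ * ‖v‖) := by
          ring
      _ ≤ (regNorm b + ε) ^ 2 * (‖v‖ * ‖v‖) := mul_le_mul_of_nonneg_right h6 (by positivity)
      _ = ((regNorm b + ε) * ‖v‖) ^ 2 := by ring
  exact (sq_le_sq₀ (norm_nonneg _) (by positivity)).1 h5

/-- the dense set suffices for strong convergence -/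
theorem FCV_dense {G : Type} [Group G] (σ : ∀ n : ℕ, G →* Equiv.Perm (Fin n))
    (h : ∀ (l : List (G × ℚ × ℚ)) (k : ℕ), ∃ N₀ : ℕ, ∀ N : ℕ, N₀ ≤ N →
      FCV_El (DIA_E l) (1 / ((k : ℝ) + 1)) (σ N)) : StrongLimPerm (fun n => n) σ := by
  intro a' ε' hε'
  obtain ⟨l, hl⟩ := DIA_approx A_RNB A_REP a' (ε' / 3) (by linarith)
  obtain ⟨k1, hk1⟩ := exists_nat_one_div_lt (show (0 : ℝ) < ε' / 3 by linarith)
  obtain ⟨N₀, hN₀⟩ := h l k1
  filter_upwards [eventually_ge_atTop N₀] with N hN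
  intro v hv
  have u1 := hN₀ N hN v hv
  have u3 : regNorm (DIA_E l) ≤ regNorm a' + ε' / 3 := by
    have e1 : DIA_E l = a' + (-1 : ℂ) • (a' - DIA_E l) := by
      rw [_root_.neg_smul, one_smul]
      abel
    have e2 := (A_RNB G a' ((-1 : ℂ) • (a' - DIA_E l))).2.2.2.2.2.2.2.2.1
    rw [← e1] at e2
    have e3 := (A_RNB G (a' - DIA_E l) a').2.2.2.2.2.2.2.2.2.1 (-1)
    rw [norm_neg, norm_one, one_mul] at e3
    linarith [hl.1]
  have u4 : rep (permRep (σ N)) a' v =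
      rep (permRep (σ N)) (DIA_E l) v + rep (permRep (σ N)) (a' - DIA_E l) v := by
    have e1 : a' = DIA_E l + (a' - DIA_E l) := by abel
    have e2 := (A_REP G _ (permRep (σ N)) (DIA_E l) (a' - DIA_E l) v v).2.1
    rw [← e1] at e2
    rw [e2, ContinuousLinearMap.add_apply]
  rw [u4]
  refine (norm_add_le _ _).trans ?_
  have u5 := hl.2 N (σ N) v
  have hv0 : 0 ≤ ‖v‖ := norm_nonneg _
  calc ‖rep (permRep (σ N)) (DIA_E l) v‖ + ‖rep (permRep (σ N)) (a' - DIA_E l) v‖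
      ≤ (regNorm (DIA_E l) + 1 / ((k1 : ℝ) + 1)) * ‖v‖ + ε' / 3 * ‖v‖ := add_le_add u1 u5
    _ = (regNorm (DIA_E l) + 1 / ((k1 : ℝ) + 1) + ε' / 3) * ‖v‖ := by ring
    _ ≤ (regNorm a' + ε') * ‖v‖ := mul_le_mul_of_nonneg_right (by linarith) hv0

/-! ### The theorem -/

theorem FCV_card (N : ℕ) :
    ((Fintype.card (Fin 2 → Equiv.Perm (Fin N)) : ℕ) : ℝ) = (N.factorial : ℝ) ^ 2 := by
  rw [Fintype.card_fun, Fintype.card_perm, Fintype.card_fin, Fintype.card_fin]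
  push_cast
  rfl

theorem FCV (hPRT : PRT_stmt) (hSEP : SEP_stmt) : FCV_stmt := by
  classical
  obtain ⟨c, t, hc, ht, hP0⟩ := hPRT
  refine ⟨c, hc, fun Γ hΓ g hg hne => ?_⟩
  obtain ⟨e⟩ := hne
  obtain ⟨θ, hP1, hP2⟩ := hP0 Γ g e hg hΓ
  obtain ⟨F, hF⟩ := A_DOM Γ hΓ
  obtain ⟨H, hHinv, hHd⟩ := hSEP Γ hΓ
  haveI : Countable Γ := (A_DOB Γ F hΓ hF).1
  -- the selection
  obtain ⟨x, hx⟩ := FCV_sel (ι := (ℕ × ℕ) ⊕ (List (Γ × ℚ × ℚ) × ℕ))
    (fun N => Fin 2 → Equiv.Perm (Fin N))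
    (fun i N σ => Sum.elim
      (fun p : ℕ × ℕ => FCV_Good Γ F (H p.1) (1 / ((p.2 : ℝ) + 1)) c N
        ((FreeGroup.lift σ).comp (θ N)))
      (fun p : List (Γ × ℚ × ℚ) × ℕ => FCV_El (DIA_E p.1) (1 / ((p.2 : ℝ) + 1))
        ((FreeGroup.lift σ).comp (θ N))) i) (by
      intro i η hη
      simp only [FCV_card]
      rcases i with p | p
      · exact FCV_stepA hΓ hF c t ht θ (fun h hh hz ε hε => hP1 F h hF hh hz ε hε) _ (hHinv _)
          _ η (by positivity) hη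
      · exact FCV_stepB t ht θ hP2 _ _ η (by positivity) hη)
  -- strong convergence and transitivity
  have hSL : StrongLimPerm (fun n => n) (fun N => (FreeGroup.lift (x N)).comp (θ N)) :=
    FCV_dense _ fun l k => hx (Sum.inr (l, k))
  obtain ⟨s, hs⟩ := (A_SGF g hg).1
  obtain ⟨a, ε₀, hε₀, ha⟩ := A_TRA Γ (e.symm.toMonoidHom.comp s)
    (e.symm.injective.comp hs)
  obtain ⟨Nt, hNt⟩ := Filter.eventually_atTop.1 (hSL a ε₀ hε₀)
  have htr : ∀ N, Nt ≤ N → ∀ i j, ∃ γ, ((FreeGroup.lift (x N)).comp (θ N)) γ i = j :=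
    fun N hN => ha N _ (hNt N hN)
  have htau : ∀ N : ℕ, ∃ τ : Γ →* Equiv.Perm (Fin N), ∀ i j, ∃ γ, τ γ i = j := by
    intro N
    obtain ⟨τ, hτ⟩ := (A_SGF g hg).2 N
    refine ⟨τ.comp e.toMonoidHom, fun i j => ?_⟩
    obtain ⟨γ, hγ⟩ := hτ i j
    refine ⟨e.symm γ, ?_⟩
    show τ (e (e.symm γ)) i = j
    rw [e.apply_symm_apply]
    exact hγ
  choose τ hτ using htau
  obtain ⟨σ, hσ⟩ : ∃ σ : ∀ n : ℕ, Γ →* Equiv.Perm (Fin n), ∀ N,
      (Nt ≤ N → σ N = (FreeGroup.lift (x N)).comp (θ N)) ∧ (¬ Nt ≤ N → σ N = τ N) := by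
    refine ⟨fun N => if Nt ≤ N then (FreeGroup.lift (x N)).comp (θ N) else τ N, fun N => ?_⟩
    exact ⟨fun h => if_pos h, fun h => if_neg h⟩
  refine ⟨σ, ?_, ?_, ?_⟩
  · intro N
    by_cases hN : Nt ≤ N
    · rw [(hσ N).1 hN]
      exact htr N hN
    · rw [(hσ N).2 hN]
      exact hτ N
  · intro b ε hε
    filter_upwards [hSL b ε hε, eventually_ge_atTop Nt] with N h1 hN
    rw [(hσ N).1 hN]
    exact h1
  · intro h hh ε hε
    have hh' : Inv Γ h := hh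
    obtain ⟨i, hi⟩ := hHd h hh' (ε / 4) (by positivity)
    obtain ⟨l, hl⟩ := exists_nat_one_div_lt (show (0 : ℝ) < ε / 4 by positivity)
    obtain ⟨N₁, hN₁⟩ := hx (Sum.inl (i, l))
    filter_upwards [eventually_ge_atTop N₁, eventually_ge_atTop Nt] with N hN hNt'
    rw [(hσ N).1 hNt']
    intro μ φ hμ0 hμ hφ
    have key : |(∫ z in F, H i z * ∑ i, ‖φ z i‖ ^ 2) -
          (∫ z in F, H i z) / (volume F).toReal * ∫ z in F, ∑ i, ‖φ z i‖ ^ 2| ≤
        1 / ((l : ℝ) + 1) * ∫ z in F, ∑ i, ‖φ z i‖ ^ 2 := hN₁ N hN μ φ hμ0 hμ hφ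
    obtain ⟨-, -, hpos, hfin, hdom, -⟩ := A_DOB Γ F hΓ hF
    haveI : IsFiniteMeasure (volume.restrict F : Measure ℍ) := ⟨by
      rw [Measure.restrict_apply_univ]; exact hfin⟩
    have hv : 0 < (volume F).toReal := ENNReal.toReal_pos hpos.ne' hfin.ne
    have isq := FCV_inv_sq hφ
    have hw : ∃ w : ℍ → ℝ, w = fun z => ∑ i, ‖φ z i‖ ^ 2 := ⟨_, rfl⟩
    obtain ⟨w, hw⟩ := hw
    have hw0 : ∀ z, 0 ≤ w z := fun z => by
      rw [hw]
      positivity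
    show Equidist Γ h (fun z => ∑ i, ‖φ z i‖ ^ 2) ε
    rw [← hw] at isq ⊢
    have key' : |(∫ z in F, H i z * w z) -
          (∫ z in F, H i z) / (volume F).toReal * ∫ z in F, w z| ≤
        1 / ((l : ℝ) + 1) * ∫ z in F, w z := by
      rw [hw]
      exact key
    have j0 := FCV_int hΓ hF hh'
    have j0' := FCV_int hΓ hF (hHinv i)
    have j1 := FCV_int hΓ hF isq
    have j2 := FCV_int hΓ hF (FCV_inv_mul hh' isq)
    have j3 := FCV_int hΓ hF (FCV_inv_mul (hHinv i) isq)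
    intro F' hF'
    obtain ⟨hvF, hint⟩ := hdom F' hF'
    rw [hint (fun z => h z * w z) (FCV_inv_mul hh' isq).2, hint w isq.2, hint h hh'.2, hvF]
    set I : ℝ := ∫ z in F, w z with hI
    have hI0 : 0 ≤ I := integral_nonneg fun z => hw0 z
    -- the two differences
    have d1 : |(∫ z in F, h z * w z) - ∫ z in F, H i z * w z| ≤ ε / 4 * I := by
      rw [← integral_sub j2 j3]
      refine (abs_integral_le_integral_abs).trans ?_
      rw [hI, ← integral_const_mul]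
      refine integral_mono ((j2.sub j3).abs) (j1.const_mul _) fun z => ?_
      show |h z * w z - H i z * w z| ≤ ε / 4 * w z
      rw [← sub_mul, abs_mul, abs_of_nonneg (hw0 z)]
      exact mul_le_mul_of_nonneg_right (hi z) (hw0 z)
    have d2 : |(∫ z in F, h z) / (volume F).toReal - (∫ z in F, H i z) / (volume F).toReal| ≤
        ε / 4 := by
      rw [← sub_div, abs_div, abs_of_pos hv, div_le_iff₀ hv, ← integral_sub j0 j0']
      refine (abs_integral_le_integral_abs).trans ?_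
      have : (∫ _z in F, ε / 4) = ε / 4 * (volume F).toReal := by
        rw [integral_const, smul_eq_mul, measureReal_restrict_apply_univ, measureReal_def, mul_comm]
      rw [← this]
      exact integral_mono ((j0.sub j0').abs) (integrable_const _) fun z => hi z
    have d3 : |((∫ z in F, h z) / (volume F).toReal - (∫ z in F, H i z) / (volume F).toReal) * I| ≤
        ε / 4 * I := by
      rw [abs_mul, abs_of_nonneg hI0]
      exact mul_le_mul_of_nonneg_right d2 hI0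
    have d4 : 1 / ((l : ℝ) + 1) * I ≤ ε / 4 * I := mul_le_mul_of_nonneg_right hl.le hI0
    have d5 := key'.trans d4
    rw [sub_mul] at d3
    rw [abs_le] at d1 d3 d5 ⊢
    constructor <;> nlinarith [d1.1, d1.2, d3.1, d3.2, d5.1, d5.2, mul_nonneg hε.le hI0]

end Pool.Agent.QX
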