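import Pool.Agent.helper4.QX.SpecM

/-!
# Project QX, row GEX: expansion of the expected trace of a test function
-/

set_option autoImplicit false

open MeasureTheory ProbabilityTheory Filter Set Polynomial
open Pool.Agent.QU Pool.Agent.RP

namespace Pool.Agent.QX

theorem GEX_num (C : ℝ) (q j m : ℕ) (hC : 1 ≤ C) (hq : 1 ≤ q) (hj : 1 ≤ j) (hm : 1 ≤ m) :
    (3 : ℝ) ^ j * 4 ^ (q * j + 1) * Real.exp (C * (((q * j : ℕ) : ℝ) + 1) ^ 2) ≤
      4 ^ ((3 + ⌈4 * C⌉₊) * (q * j) ^ 2 * m) := by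
  have hs : 1 ≤ q * j := Nat.one_le_iff_ne_zero.2 (by positivity)
  have hjs : j ≤ q * j := Nat.le_mul_of_pos_left j hq
  generalize q * j = s at *
  have hs' : (1 : ℝ) ≤ s := by exact_mod_cast hs
  have hss : s ≤ s ^ 2 := by nlinarith
  have e1 : (3 : ℝ) ^ j ≤ 4 ^ (s ^ 2) := by
    calc (3 : ℝ) ^ j ≤ 4 ^ j := pow_le_pow_left₀ (by norm_num) (by norm_num) j
      _ ≤ 4 ^ (s ^ 2) := pow_le_pow_right₀ (by norm_num) (hjs.trans hss)
  have e2 : (4 : ℝ) ^ (s + 1) ≤ 4 ^ (2 * s ^ 2) := pow_le_pow_right₀ (by norm_num) (by nlinarith)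
  have e3 : Real.exp (C * ((s : ℝ) + 1) ^ 2) ≤ 4 ^ (⌈4 * C⌉₊ * s ^ 2) := by
    have h1 : C * ((s : ℝ) + 1) ^ 2 ≤ ((⌈4 * C⌉₊ * s ^ 2 : ℕ) : ℝ) := by
      have h2 : 4 * C ≤ (⌈4 * C⌉₊ : ℝ) := Nat.le_ceil _
      have h3 : ((s : ℝ) + 1) ^ 2 ≤ 4 * (s : ℝ) ^ 2 := by nlinarith
      push_cast
      calc C * ((s : ℝ) + 1) ^ 2 ≤ C * (4 * (s : ℝ) ^ 2) :=
            mul_le_mul_of_nonneg_left h3 (by linarith)
        _ = 4 * C * (s : ℝ) ^ 2 := by ring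
        _ ≤ (⌈4 * C⌉₊ : ℝ) * (s : ℝ) ^ 2 := mul_le_mul_of_nonneg_right h2 (sq_nonneg _)
    calc Real.exp (C * ((s : ℝ) + 1) ^ 2) ≤ Real.exp ((⌈4 * C⌉₊ * s ^ 2 : ℕ) : ℝ) :=
          Real.exp_le_exp.2 h1
      _ = Real.exp 1 ^ (⌈4 * C⌉₊ * s ^ 2) := by rw [← Real.exp_nat_mul, mul_one]
      _ ≤ 4 ^ (⌈4 * C⌉₊ * s ^ 2) :=
          pow_le_pow_left₀ (Real.exp_pos _).le (by linarith [Real.exp_one_lt_d9]) _
  calc (3 : ℝ) ^ j * 4 ^ (s + 1) * Real.exp (C * ((s : ℝ) + 1) ^ 2)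
      ≤ 4 ^ (s ^ 2) * 4 ^ (2 * s ^ 2) * 4 ^ (⌈4 * C⌉₊ * s ^ 2) := by gcongr
    _ = 4 ^ ((3 + ⌈4 * C⌉₊) * s ^ 2) := by
        rw [← pow_add, ← pow_add]
        congr 1
        ring
    _ ≤ 4 ^ ((3 + ⌈4 * C⌉₊) * s ^ 2 * m) :=
        pow_le_pow_right₀ (by norm_num) (Nat.le_mul_of_pos_right _ hm)

instance GEX_prob (ι : Type) [Fintype ι] : IsProbabilityMeasure (gau ι) := by
  unfold gau
  infer_instance

theorem GEX_sum : Summable (fun j : ℕ => 1 / ((j : ℝ) + 1) ^ 2) ∧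
    ∑' j : ℕ, 1 / ((j : ℝ) + 1) ^ 2 ≤ 2 := by
  have h0 := hasSum_zeta_two
  have h1 : Summable (fun n : ℕ => 1 / (n : ℝ) ^ 2) := h0.summable
  have h2 := (summable_nat_add_iff 1).2 h1
  have h3 : (fun j : ℕ => 1 / ((j : ℝ) + 1) ^ 2) = fun n : ℕ => 1 / ((n + 1 : ℕ) : ℝ) ^ 2 := by
    funext j
    push_cast
    rfl
  rw [h3]
  refine ⟨h2, ?_⟩
  have h4 := h1.tsum_eq_zero_add
  rw [h0.tsum_eq] at h4
  have h5 : (1 : ℝ) / ((0 : ℕ) : ℝ) ^ 2 = 0 := by norm_num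
  rw [h5, zero_add] at h4
  rw [← h4]
  have h6 := Real.pi_lt_d2
  have h7 := Real.pi_pos
  nlinarith

/-- data of one Chebyshev polynomial -/
theorem GEX_one (h1 : REM_stmt) (h2 : EXH_stmt) (h3 : TCH_stmt) (h4 : NTP_stmt) (c C : ℝ)
    (hc : EXWc c C) : ∃ C' : ℝ, 1 ≤ C' ∧ ∀ (D q m : ℕ) (P : Mat D F2) (K r : ℝ), 1 ≤ D → 1 ≤ q →
    1 ≤ m → 0 < K → 0 ≤ r → r ≤ K → SA P → UnB P K → RegB P r → Sup P {w | w.norm ≤ q} →
    ∀ j : ℕ, 1 ≤ j → ∃ φ : ℕ → ℝ,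
      (∀ k < m, |φ k| ≤ (C' * (q : ℝ) ^ 12 * (m : ℝ) ^ 6 * (j : ℝ) ^ 12) ^ k * 4) ∧
      ∀ N : ℕ, 1 ≤ N →
        Integrable (fun x : GI N → ℝ => nt c K P (Polynomial.Chebyshev.T ℝ (j : ℤ)) x)
          (gau (GI N)) ∧
        |(∫ x, nt c K P (Polynomial.Chebyshev.T ℝ (j : ℤ)) x ∂(gau (GI N))) -
          ∑ k ∈ Finset.range m, φ k / (N : ℝ) ^ (2 * k)| ≤
            (C' * (q : ℝ) ^ 12 * (m : ℝ) ^ 6 * (j : ℝ) ^ 12 / (N : ℝ) ^ 2) ^ m := by
  obtain ⟨CR, hCR, hR⟩ := h1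
  refine ⟨CR * (((3 + ⌈4 * C⌉₊ : ℕ) : ℝ)) ^ 6, ?_, ?_⟩
  · have h5 : (1 : ℝ) ≤ ((3 + ⌈4 * C⌉₊ : ℕ) : ℝ) := by
      exact_mod_cast Nat.le_add_right_of_le (by norm_num)
    have h6 : (1 : ℝ) ≤ (((3 + ⌈4 * C⌉₊ : ℕ) : ℝ)) ^ 6 := one_le_pow₀ h5
    nlinarith
  · intro D q m P K r hD hq hm hK hr hrK hP hU hReg hS j hj
    obtain ⟨t1, t2, t3, t4⟩ := h3
    obtain ⟨φ, f1, f2, f3, f4⟩ := h2 c C hc D q j P K r (Polynomial.Chebyshev.T ℝ (j : ℤ)) hD hK hr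
      hReg hS (t2 j)
    have hmaj : maj (Polynomial.Chebyshev.T ℝ (j : ℤ)) (r / K) ≤ 3 ^ j :=
      t1 j (r / K) (div_nonneg hr hK.le) ((div_le_one hK).2 hrK)
    have hmaj0 : 0 ≤ maj (Polynomial.Chebyshev.T ℝ (j : ℤ)) (r / K) := (abs_nonneg _).trans f3
    have hL1 : 1 ≤ (3 + ⌈4 * C⌉₊) * (q * j) ^ 2 * m :=
      Nat.one_le_iff_ne_zero.2 (by positivity)
    have hmL : m ≤ (3 + ⌈4 * C⌉₊) * (q * j) ^ 2 * m :=
      Nat.le_mul_of_pos_left m (by positivity)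
    have hf : ∑' k, |φ k| ≤ 4 ^ ((3 + ⌈4 * C⌉₊) * (q * j) ^ 2 * m) * 1 := by
      rw [mul_one]
      refine f2.trans (le_trans ?_ (GEX_num C q j m hc.2.2.1 hq hj hm))
      have h5 : ((ball (q * j)).card : ℝ) ≤ 4 ^ (q * j + 1) := by exact_mod_cast t4 (q * j)
      have h6 : Real.exp (C * ((q * j : ℕ) + 1 : ℝ) ^ 2) =
        Real.exp (C * (((q * j : ℕ) : ℝ) + 1) ^ 2) := rfl
      rw [h6]
      gcongr
    have hint : ∀ N : ℕ, 1 ≤ N →
        |∫ x, nt c K P (Polynomial.Chebyshev.T ℝ (j : ℤ)) x ∂(gau (GI N))| ≤ 1 := by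
      intro N hN
      have h5 : ∀ x : GI N → ℝ, ‖nt c K P (Polynomial.Chebyshev.T ℝ (j : ℤ)) x‖ ≤ 1 := by
        intro x
        rw [Real.norm_eq_abs, abs_le]
        refine (h4 D N c K x P hD hN hK hP hU).1 (Polynomial.Chebyshev.T ℝ (j : ℤ)) (-1) 1 ?_
        intro t ht
        rw [← Real.cos_arccos (abs_le.1 ht).1 (abs_le.1 ht).2, t3]
        exact abs_le.1 (Real.abs_cos_le_one _)
      have h6 := norm_integral_le_of_norm_le_const (μ := gau (GI N)) (Filter.Eventually.of_forall h5)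
      rw [probReal_univ, mul_one, Real.norm_eq_abs] at h6
      exact h6
    obtain ⟨g1, g2⟩ := hR φ 1 ((3 + ⌈4 * C⌉₊) * (q * j) ^ 2 * m) hL1 zero_le_one f1 hf (by
      intro N hN
      rw [← (f4 N hN).2]
      exact hint N hN)
    have hL6 : CR * (((3 + ⌈4 * C⌉₊) * (q * j) ^ 2 * m : ℕ) : ℝ) ^ 6 =
        CR * (((3 + ⌈4 * C⌉₊ : ℕ) : ℝ)) ^ 6 * (q : ℝ) ^ 12 * (m : ℝ) ^ 6 * (j : ℝ) ^ 12 := by
      push_cast
      ring
    rw [hL6] at g1 g2
    refine ⟨φ, fun k hk => ?_, fun N hN => ⟨(f4 N hN).1, ?_⟩⟩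
    · have h5 := g1 k (hk.le.trans hmL)
      rw [mul_one] at h5
      exact h5
    · have h5 := g2 m hm hmL N hN
      rw [mul_one, ← (f4 N hN).2] at h5
      exact h5

/-- decay of the coefficients -/
theorem GEX_decay (R : ℕ) (κ gj : ℝ) (j m k : ℕ) (hκ : 0 < κ) (hj : 1 ≤ j) (hR : R = 12 * m + 2)
    (hk : k ≤ m) (h : |gj| ≤ 2 * (2 * (R : ℝ) / (κ * j)) ^ R) :
    |gj| * ((j : ℝ) ^ 12) ^ k ≤ 2 * (2 * (R : ℝ) / κ) ^ R * (1 / (j : ℝ) ^ 2) := by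
  have hj' : (1 : ℝ) ≤ j := by exact_mod_cast hj
  have hj0 : (0 : ℝ) < j := by linarith
  have hE : (0 : ℝ) ≤ (2 * (R : ℝ) / κ) ^ R := by positivity
  have h1 : (2 * (R : ℝ) / (κ * j)) ^ R = (2 * (R : ℝ) / κ) ^ R / (j : ℝ) ^ R := by
    rw [← div_div, div_pow]
  rw [h1] at h
  have h2 : ((j : ℝ) ^ 12) ^ k * (1 / (j : ℝ) ^ R) ≤ 1 / (j : ℝ) ^ 2 := by
    rw [mul_one_div, div_le_div_iff₀ (by positivity) (by positivity), one_mul, ← pow_mul,
      ← pow_add]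
    exact pow_le_pow_right₀ hj' (by omega)
  calc |gj| * ((j : ℝ) ^ 12) ^ k
      ≤ 2 * ((2 * (R : ℝ) / κ) ^ R / (j : ℝ) ^ R) * ((j : ℝ) ^ 12) ^ k :=
        mul_le_mul_of_nonneg_right h (by positivity)
    _ = 2 * (2 * (R : ℝ) / κ) ^ R * (((j : ℝ) ^ 12) ^ k * (1 / (j : ℝ) ^ R)) := by ring
    _ ≤ 2 * (2 * (R : ℝ) / κ) ^ R * (1 / (j : ℝ) ^ 2) :=
        mul_le_mul_of_nonneg_left h2 (by positivity)

theorem GEX (h1 : REM_stmt) (h2 : EXH_stmt) (h3 : TCH_stmt) (h4 : NTP_stmt) : GEX_stmt := by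
  intro c C hc
  obtain ⟨C', hC', hX⟩ := GEX_one h1 h2 h3 h4 c C hc
  refine ⟨C', hC', ?_⟩
  intro D q m P K r a b g hD hq hm hK hr hrK hP hU hReg hS ha hab hg0 hg
  have hφ := hX D q m P K r hD hq hm hK hr hrK hP hU hReg hS
  choose! φ hφ1 hφ2 using hφ
  set R : ℕ := 12 * m + 2 with hR
  set κ : ℝ := b - a with hκ
  have hκ0 : 0 < κ := by rw [hκ]; linarith
  set E : ℝ := (2 * (R : ℝ) / κ) ^ R with hE
  have hE0 : 0 ≤ E := by rw [hE]; positivity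
  set W : ℝ := C' * (q : ℝ) ^ 12 * (m : ℝ) ^ 6 with hW
  have hW0 : 0 ≤ W := by rw [hW]; positivity
  obtain ⟨hz1, hz2⟩ := GEX_sum
  -- decay for the shifted index
  have hdec : ∀ k ≤ m, ∀ j : ℕ, |g (j + 1)| * ((((j + 1 : ℕ) : ℝ)) ^ 12) ^ k ≤
      2 * E * (1 / ((j : ℝ) + 1) ^ 2) := by
    intro k hk j
    have h5 := GEX_decay R κ (g (j + 1)) (j + 1) m k hκ0 (by omega) hR hk (hg (j + 1) (by omega))
    have h6 : (((j + 1 : ℕ) : ℝ)) ^ 2 = ((j : ℝ) + 1) ^ 2 := by push_cast; ring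
    rw [h6] at h5
    exact h5
  have hgs1 : Summable (fun j : ℕ => |g (j + 1)|) := by
    refine Summable.of_nonneg_of_le (fun j => abs_nonneg _) (fun j => ?_) (hz1.mul_left (2 * E))
    have h5 := hdec 0 (Nat.zero_le m) j
    rw [pow_zero, mul_one] at h5
    exact h5
  have hgs : Summable (fun j : ℕ => |g j|) := (summable_nat_add_iff 1).1 hgs1
  -- coefficients
  have hcs : ∀ k < m, Summable (fun j : ℕ => g (j + 1) * φ (j + 1) k) := by
    intro k hk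
    refine Summable.of_norm_bounded (g := fun j : ℕ => W ^ k * 4 * (2 * E * (1 / ((j : ℝ) + 1) ^ 2)))
      ((hz1.mul_left (2 * E)).mul_left (W ^ k * 4)) fun j => ?_
    rw [norm_mul, Real.norm_eq_abs, Real.norm_eq_abs]
    have h5 := hφ1 (j + 1) (by omega) k hk
    have h6 := hdec k hk.le j
    calc |g (j + 1)| * |φ (j + 1) k|
        ≤ |g (j + 1)| * ((W * (((j + 1 : ℕ) : ℝ)) ^ 12) ^ k * 4) :=
          mul_le_mul_of_nonneg_left h5 (abs_nonneg _)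
      _ = W ^ k * 4 * (|g (j + 1)| * ((((j + 1 : ℕ) : ℝ)) ^ 12) ^ k) := by
          rw [mul_pow]
          ring
      _ ≤ W ^ k * 4 * (2 * E * (1 / ((j : ℝ) + 1) ^ 2)) :=
          mul_le_mul_of_nonneg_left h6 (by positivity)
  refine ⟨fun k => (if k = 0 then g 0 else 0) + ∑' j : ℕ, g (j + 1) * φ (j + 1) k, ?_⟩
  intro N hN
  have hN' : (1 : ℝ) ≤ N := by exact_mod_cast hN
  have hN0 : (0 : ℝ) < N := by linarith
  -- bounds for the traces
  have hb : ∀ (j : ℕ) (x : GI N → ℝ), |nt c K P (Polynomial.Chebyshev.T ℝ (j : ℤ)) x| ≤ 1 := by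
    intro j x
    rw [abs_le]
    refine (h4 D N c K x P hD hN hK hP hU).1 (Polynomial.Chebyshev.T ℝ (j : ℤ)) (-1) 1 ?_
    intro t ht
    rw [← Real.cos_arccos (abs_le.1 ht).1 (abs_le.1 ht).2, h3.2.2.1]
    exact abs_le.1 (Real.abs_cos_le_one _)
  have h0 : ∀ x : GI N → ℝ, nt c K P (Polynomial.Chebyshev.T ℝ ((0 : ℕ) : ℤ)) x = 1 := by
    intro x
    have h5 := (h4 D N c K x P hD hN hK hP hU).1 (Polynomial.Chebyshev.T ℝ ((0 : ℕ) : ℤ)) 1 1 (by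
      intro t _
      have h6 : (Polynomial.Chebyshev.T ℝ ((0 : ℕ) : ℤ)).eval t = 1 := by
        rw [Nat.cast_zero, Polynomial.Chebyshev.T_zero, eval_one]
      rw [h6]
      exact ⟨le_rfl, le_rfl⟩)
    exact le_antisymm h5.2 h5.1
  have hi : ∀ j : ℕ, Integrable (fun x : GI N → ℝ =>
      nt c K P (Polynomial.Chebyshev.T ℝ (j : ℤ)) x) (gau (GI N)) := by
    intro j
    rcases Nat.eq_zero_or_pos j with hj | hj
    · subst hj
      simp only [h0]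
      exact integrable_const _
    · exact (hφ2 j hj N hN).1
  have hF : ∀ j : ℕ, Integrable (fun x : GI N → ℝ =>
      g j * nt c K P (Polynomial.Chebyshev.T ℝ (j : ℤ)) x) (gau (GI N)) :=
    fun j => (hi j).const_mul _
  have hFn : ∀ (j : ℕ) (x : GI N → ℝ),
      ‖g j * nt c K P (Polynomial.Chebyshev.T ℝ (j : ℤ)) x‖ ≤ |g j| := by
    intro j x
    rw [norm_mul, Real.norm_eq_abs, Real.norm_eq_abs]
    exact mul_le_of_le_one_right (abs_nonneg _) (hb j x)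
  have hFs : Summable (fun j : ℕ => ∫ x, ‖g j * nt c K P (Polynomial.Chebyshev.T ℝ (j : ℤ)) x‖
      ∂(gau (GI N))) := by
    refine Summable.of_nonneg_of_le (fun j => integral_nonneg fun x => norm_nonneg _) (fun j => ?_)
      hgs
    have h5 := integral_mono (μ := gau (GI N)) (hF j).norm (integrable_const (|g j|)) (hFn j)
    rw [integral_const, probReal_univ, one_smul] at h5
    exact h5
  have hint := hasSum_integral_of_summable_integral_norm hF hFs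
  have hsx : ∀ x : GI N → ℝ, Summable (fun j : ℕ =>
      g j * nt c K P (Polynomial.Chebyshev.T ℝ (j : ℤ)) x) := fun x =>
    Summable.of_norm_bounded hgs fun j => hFn j x
  refine ⟨?_, ?_⟩
  · refine Integrable.of_bound (C := ∑' j, |g j|) ?_ ?_
    · refine aestronglyMeasurable_of_tendsto_ae (u := atTop)
        (f := fun (n : ℕ) (x : GI N → ℝ) => ∑ j ∈ Finset.range n,
          g j * nt c K P (Polynomial.Chebyshev.T ℝ (j : ℤ)) x) ?_ ?_
      · intro n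
        exact (integrable_finsetSum _ fun j _ => hF j).aestronglyMeasurable
      · refine Filter.Eventually.of_forall fun x => ?_
        exact (hsx x).hasSum.tendsto_sum_nat
    · refine Filter.Eventually.of_forall fun x => ?_
      unfold yG
      exact (norm_tsum_le_tsum_norm (Summable.of_nonneg_of_le (fun j => norm_nonneg _)
        (fun j => hFn j x) hgs)).trans (Summable.tsum_le_tsum (fun j => hFn j x)
          (Summable.of_nonneg_of_le (fun j => norm_nonneg _) (fun j => hFn j x) hgs) hgs)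
  · set I : ℕ → ℝ := fun j => ∫ x, nt c K P (Polynomial.Chebyshev.T ℝ (j : ℤ)) x ∂(gau (GI N))
      with hI
    have hI0 : I 0 = 1 := by
      have h5 : I 0 = ∫ _x : GI N → ℝ, (1 : ℝ) ∂(gau (GI N)) :=
        integral_congr_ae (Filter.Eventually.of_forall h0)
      rw [h5, integral_const, probReal_univ, one_smul]
    have e1 : ∀ j : ℕ, ∫ x, g j * nt c K P (Polynomial.Chebyshev.T ℝ (j : ℤ)) x ∂(gau (GI N)) =
        g j * I j := fun j => integral_const_mul _ _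
    have e2 : ∫ x, yG c K P g x ∂(gau (GI N)) = ∑' j, g j * I j := by
      have h5 := hint.tsum_eq
      simp only [e1] at h5
      exact h5.symm
    have e3 : Summable (fun j => g j * I j) := by
      have h5 := hint.summable
      simp only [e1] at h5
      exact h5
    have e4 : Summable (fun j => g (j + 1) * I (j + 1)) := (summable_nat_add_iff 1).2 e3
    rw [e2, e3.tsum_eq_zero_add, hI0, mul_one]
    have e5 : ∑ k ∈ Finset.range m, ((if k = 0 then g 0 else 0) +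
        ∑' j : ℕ, g (j + 1) * φ (j + 1) k) / (N : ℝ) ^ (2 * k) =
        g 0 + ∑' j : ℕ, g (j + 1) * ∑ k ∈ Finset.range m, φ (j + 1) k / (N : ℝ) ^ (2 * k) := by
      simp only [add_div]
      rw [Finset.sum_add_distrib]
      congr 1
      · rw [Finset.sum_eq_single 0]
        · simp
        · intro k _ hk
          rw [if_neg hk, zero_div]
        · intro hk
          exact absurd (Finset.mem_range.2 hm) hk
      · have h5 : ∀ j : ℕ, g (j + 1) * ∑ k ∈ Finset.range m, φ (j + 1) k / (N : ℝ) ^ (2 * k) =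
            ∑ k ∈ Finset.range m, g (j + 1) * φ (j + 1) k / (N : ℝ) ^ (2 * k) := by
          intro j
          rw [Finset.mul_sum]
          exact Finset.sum_congr rfl fun k _ => mul_div_assoc' _ _ _
        simp only [h5]
        rw [Summable.tsum_finsetSum fun k hk => (hcs k (Finset.mem_range.1 hk)).div_const _]
        exact Finset.sum_congr rfl fun k _ => tsum_div_const.symm
    have e6 : Summable (fun j : ℕ => g (j + 1) * ∑ k ∈ Finset.range m,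
        φ (j + 1) k / (N : ℝ) ^ (2 * k)) := by
      have h5 : (fun j : ℕ => g (j + 1) * ∑ k ∈ Finset.range m, φ (j + 1) k / (N : ℝ) ^ (2 * k)) =
          fun j => ∑ k ∈ Finset.range m, g (j + 1) * φ (j + 1) k / (N : ℝ) ^ (2 * k) := by
        funext j
        rw [Finset.mul_sum]
        exact Finset.sum_congr rfl fun k _ => mul_div_assoc' _ _ _
      rw [h5]
      exact summable_sum fun k hk => (hcs k (Finset.mem_range.1 hk)).div_const _
    rw [e5, add_sub_add_left_eq_sub, ← e4.tsum_sub e6]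
    have e7 : ∀ j : ℕ, ‖g (j + 1) * I (j + 1) - g (j + 1) * ∑ k ∈ Finset.range m,
        φ (j + 1) k / (N : ℝ) ^ (2 * k)‖ ≤
          2 * E * W ^ m / (N : ℝ) ^ (2 * m) * (1 / ((j : ℝ) + 1) ^ 2) := by
      intro j
      rw [← mul_sub, norm_mul, Real.norm_eq_abs, Real.norm_eq_abs]
      have h5 := (hφ2 (j + 1) (by omega) N hN).2
      have h6 := hdec m le_rfl j
      calc |g (j + 1)| * |I (j + 1) - ∑ k ∈ Finset.range m, φ (j + 1) k / (N : ℝ) ^ (2 * k)|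
          ≤ |g (j + 1)| * (W * (((j + 1 : ℕ) : ℝ)) ^ 12 / (N : ℝ) ^ 2) ^ m :=
            mul_le_mul_of_nonneg_left h5 (abs_nonneg _)
        _ = W ^ m / (N : ℝ) ^ (2 * m) * (|g (j + 1)| * ((((j + 1 : ℕ) : ℝ)) ^ 12) ^ m) := by
            rw [div_pow, mul_pow, ← pow_mul (N : ℝ)]
            ring
        _ ≤ W ^ m / (N : ℝ) ^ (2 * m) * (2 * E * (1 / ((j : ℝ) + 1) ^ 2)) :=
            mul_le_mul_of_nonneg_left h6 (by positivity)
        _ = 2 * E * W ^ m / (N : ℝ) ^ (2 * m) * (1 / ((j : ℝ) + 1) ^ 2) := by ring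
    have e8 := tsum_of_norm_bounded (hz1.mul_left (2 * E * W ^ m / (N : ℝ) ^ (2 * m))).hasSum e7
    rw [Real.norm_eq_abs, tsum_mul_left] at e8
    refine e8.trans ?_
    have e9 : (0 : ℝ) ≤ 2 * E * W ^ m / (N : ℝ) ^ (2 * m) := by positivity
    calc 2 * E * W ^ m / (N : ℝ) ^ (2 * m) * ∑' j : ℕ, 1 / ((j : ℝ) + 1) ^ 2
        ≤ 2 * E * W ^ m / (N : ℝ) ^ (2 * m) * 2 := mul_le_mul_of_nonneg_left hz2 e9
      _ = 4 * E * W ^ m / (N : ℝ) ^ (2 * m) := by ring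

end Pool.Agent.QX
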