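import Pool.Agent.helper62.QX.MAT

/-!
# Project QX, target LMQ: Louder-Magee maps with explicit lengths
-/

set_option autoImplicit false

open Pool.Agent.QU Pool.Agent.RP

namespace Pool.Agent.QX

/-! ### The length of the surface group -/

theorem LMQ_smul {g n m : ℕ} {γ δ : SurfGrp g} (h1 : γ ∈ SLen g n) (h2 : δ ∈ SLen g m) :
    γ * δ ∈ SLen g (n + m) := by
  obtain ⟨l, hl, rfl⟩ := h1
  obtain ⟨k, hk, rfl⟩ := h2
  refine ⟨l ++ k, ?_, ?_⟩
  · rw [List.length_append]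
    omega
  · rw [List.map_append, List.prod_append]

theorem LMQ_sup {g D n : ℕ} {P Q : Mat D (SurfGrp g)} {m : ℕ} (hP : Sup P (SLen g n))
    (hQ : Sup Q (SLen g m)) : Sup (P * Q) (SLen g (n + m)) := by
  classical
  intro i j γ hγ
  rw [Matrix.mul_apply, MonoidAlgebra.coeff_sum] at hγ
  have h1 := Finsupp.support_finsetSum hγ
  rw [Finset.mem_biUnion] at h1
  obtain ⟨k, _, h2⟩ := h1
  have h3 := MonoidAlgebra.support_coeff_mul_subset _ _ h2
  obtain ⟨x, hx, y, hy, rfl⟩ := Finset.mem_mul.mp h3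
  exact LMQ_smul (hP i k x hx) (hQ k j y hy)

theorem LMQ_sup_sqi {g D q : ℕ} {P : Mat D (SurfGrp g)} (hP : Sup P (SLen g q)) (j : ℕ) :
    Sup (sqi P j) (SLen g (2 ^ j * q)) := by
  induction j with
  | zero => rw [pow_zero, one_mul]; exact hP
  | succ j ih =>
    have h1 := LMQ_sup ih ih
    have h2 : 2 ^ j * q + 2 ^ j * q = 2 ^ (j + 1) * q := by ring
    rw [h2] at h1
    exact h1

section

variable {G : Type} [Group G] {j : Bool → F2 →* G}

theorem LMQ_len {g : ℕ} (Θ : SurfGrp g →* G) (B : ℕ)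
    (hB : ∀ t : Fin g × Bool, DBL_len j (Θ (PresentedGroup.of t)) B) (n : ℕ) {γ : SurfGrp g}
    (hγ : γ ∈ SLen g n) : DBL_len j (Θ γ) (B * n) := by
  obtain ⟨l, hl, rfl⟩ := hγ
  refine DBL_mono ?_ (Nat.mul_le_mul_left B hl)
  clear hl
  induction l with
  | nil =>
    rw [List.map_nil, List.prod_nil, map_one, List.length_nil, mul_zero]
    exact DBL_one
  | cons t l ih =>
    rw [List.map_cons, List.prod_cons, map_mul, List.length_cons, mul_add, mul_one, add_comm]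
    refine DBL_mul ?_ ih
    split_ifs
    · exact hB t.1
    · rw [map_inv]
      exact DBL_inv (hB t.1)

end

theorem LMQ : LMQ_stmt := by
  intro g hg
  obtain ⟨Θ, hΘ⟩ := A_SGE g hg
  obtain ⟨j0, ψ, hj0, hψ, hcl⟩ := A_SG2
  have hex : ∃ B : ℕ, ∀ t : Fin g × Bool, DBL_len j0 (Θ (PresentedGroup.of t)) B := by
    choose f hf using fun γ : SurfGrp 2 => DBL_ex hcl γ
    refine ⟨Finset.univ.sup (fun t : Fin g × Bool => f (Θ (PresentedGroup.of t))), fun t =>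
      DBL_mono (hf _) ?_⟩
    exact Finset.le_sup (f := fun t : Fin g × Bool => f (Θ (PresentedGroup.of t)))
      (Finset.mem_univ t)
  obtain ⟨B, hB⟩ := hex
  refine ⟨8 * B * B + 9 * B + 1, by omega, fun q j => ?_⟩
  set h : ℕ := B * (2 ^ j * q) + 1 with hh
  have hnorm : ∀ n : ℕ, ∀ γ ∈ SLen g n, (((ψ h).comp Θ) γ).norm ≤
      (8 * B * B + 9 * B + 1) * (2 ^ j * q + 1) * n := by
    intro n γ hγ
    have h1 := DBL_norm (hψ h) (LMQ_len Θ B hB n hγ)
    refine h1.trans ?_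
    rw [← mul_assoc]
    refine Nat.mul_le_mul_right n ?_
    rw [hh]
    generalize 2 ^ j * q = x
    nlinarith [Nat.zero_le (B * x), Nat.zero_le x, Nat.zero_le B, Nat.zero_le (B * B)]
  refine ⟨(ψ h).comp Θ, hnorm, ?_⟩
  intro D P r r' hP hS hr _ hR hrr
  refine MAT_main ((ψ h).comp Θ) hP j ((8 * B * B + 9 * B + 1) * (2 ^ j * q + 1) * (2 ^ j * q)) hr
    hR (SLen g (2 ^ j * q)) (LMQ_sup_sqi hS j) ?_ (hnorm (2 ^ j * q)) hrr
  intro γ hγ δ hδ hγδ
  have l1 : DBL_len j0 (Θ (γ⁻¹ * δ)) (B * (2 ^ j * q) + B * (2 ^ j * q)) := by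
    rw [map_mul, map_inv]
    exact DBL_mul (DBL_inv (LMQ_len Θ B hB _ hγ)) (LMQ_len Θ B hB _ hδ)
  obtain ⟨l, hl, hl'⟩ := l1
  have hlt : (l.map (fun s => s.2.norm)).sum < 4 * h := by
    rw [hh]
    omega
  have h2 := A_INJ (SurfGrp 2) j0 (ψ h) h hj0 (hψ h) l hlt (by
    rw [hl, map_mul, map_mul, map_inv, map_inv]
    have h3 : ψ h (Θ γ) = ψ h (Θ δ) := hγδ
    rw [h3, inv_mul_cancel])
  rw [hl] at h2
  have h4 : γ⁻¹ * δ = 1 := hΘ (by rw [h2, map_one])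
  exact inv_mul_eq_one.mp h4

end Pool.Agent.QX
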