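import Pool.Agent.helper4.QX.SpecM

/-!
# Project QX, row NTP: normalised traces of polynomials of `P(U)`
-/

set_option autoImplicit false

open MeasureTheory ProbabilityTheory Filter Set Polynomial
open Pool.Agent.QU Pool.Agent.RP

namespace Pool.Agent.QX

/-- normalised eigenvalues -/
theorem NTP_ev (h1 : MRA_stmt) (h2 : MRB_stmt) (h3 : MRC_stmt) {D N : ℕ} {c K : ℝ}
    {x : GI N → ℝ} {P : Mat D F2} (hK : 0 < K) (hP : SA P) (hU : UnB P K) :
    ∃ e : Fin D × Fin N → ℝ, (∀ i, K * |e i| ≤ opn c x P) ∧ opn c x P ≤ K ∧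
      (∀ h : ℝ[X], nt c K P h x = (∑ i, h.eval (e i)) / (D * N)) ∧
      ∀ t : ℝ, 0 ≤ t → K * t < opn c x P → ∃ i, t < |e i| := by
  obtain ⟨_, a2, _, a4, a5, _⟩ := h1 D N c x
  have hA : (RM c x P).IsHermitian := a5 P hP
  have hop : opn c x P ≤ K := (h2 D N c x P K hK.le).2 hP hU
  obtain ⟨ev, b1, b2, b3⟩ := h3 (Fin D × Fin N) (RM c x P) (opn c x P) hA le_rfl
  refine ⟨fun i => K⁻¹ * ev i, fun i => ?_, hop, fun h => ?_, fun t ht hKt => ?_⟩
  · rw [abs_mul, abs_of_pos (inv_pos.2 hK), ← mul_assoc, mul_inv_cancel₀ hK.ne', one_mul]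
    exact b1 i
  · have c1 : RM c x (aeval (K⁻¹ • P) h) = aeval (RM c x P) (h.comp (C K⁻¹ * X)) := by
      rw [a4, a2, aeval_comp, map_mul, aeval_C, aeval_X, Algebra.smul_def]
    have c2 := b2 (h.comp (C K⁻¹ * X))
    unfold nt
    rw [c1, c2, Complex.ofReal_re]
    congr 1
    refine Finset.sum_congr rfl fun i _ => ?_
    rw [eval_comp, eval_mul, eval_C, eval_X]
  · by_contra hne
    push Not at hne
    have c3 := b3 (K * t) (mul_nonneg hK.le ht) (fun i => by
      have c4 := hne i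
      rw [abs_mul, abs_of_pos (inv_pos.2 hK)] at c4
      have c5 := mul_le_mul_of_nonneg_left c4 hK.le
      rwa [← mul_assoc, mul_inv_cancel₀ hK.ne', one_mul] at c5)
    exact absurd hKt (not_lt.2 c3)

theorem NTP_card {D N : ℕ} : (∑ _i : Fin D × Fin N, (1 : ℝ)) = D * N := by
  rw [Finset.sum_const, Finset.card_univ, Fintype.card_prod, Fintype.card_fin, Fintype.card_fin,
    nsmul_eq_mul, mul_one, Nat.cast_mul]

/-- means of numbers in an interval -/
theorem NTP_mean {D N : ℕ} (hD : 1 ≤ D) (hN : 1 ≤ N) (f : Fin D × Fin N → ℝ) (m M : ℝ)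
    (h : ∀ i, m ≤ f i ∧ f i ≤ M) : m ≤ (∑ i, f i) / (D * N : ℝ) ∧ (∑ i, f i) / (D * N : ℝ) ≤ M := by
  have hD' : (0 : ℝ) < D := by exact_mod_cast hD
  have hN' : (0 : ℝ) < N := by exact_mod_cast hN
  have hDN : (0 : ℝ) < D * N := mul_pos hD' hN'
  constructor
  · rw [le_div_iff₀ hDN, ← NTP_card, Finset.mul_sum]
    exact Finset.sum_le_sum fun i _ => by rw [mul_one]; exact (h i).1
  · rw [div_le_iff₀ hDN, ← NTP_card, Finset.mul_sum]
    exact Finset.sum_le_sum fun i _ => by rw [mul_one]; exact (h i).2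

theorem NTP_one {D N : ℕ} (hD : 1 ≤ D) (hN : 1 ≤ N) (f : Fin D × Fin N → ℝ)
    (h : ∀ i, 0 ≤ f i) (i : Fin D × Fin N) (hi : 1 ≤ f i) :
    1 / (D * N : ℝ) ≤ (∑ i, f i) / (D * N : ℝ) := by
  have hD' : (0 : ℝ) < D := by exact_mod_cast hD
  have hN' : (0 : ℝ) < N := by exact_mod_cast hN
  have hDN : (0 : ℝ) < D * N := mul_pos hD' hN'
  rw [div_le_div_iff_of_pos_right hDN]
  exact hi.trans (Finset.single_le_sum (fun j _ => h j) (Finset.mem_univ i))

theorem NTP (h1 : MRA_stmt) (h2 : MRB_stmt) (h3 : MRC_stmt) : NTP_stmt := by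
  intro D N c K x P hD hN hK hP hU
  obtain ⟨e, e1, e2, e3, e4⟩ := NTP_ev h1 h2 h3 (c := c) (x := x) hK hP hU
  have e5 : ∀ i, |e i| ≤ 1 := by
    intro i
    have := (e1 i).trans e2
    by_contra h
    push Not at h
    nlinarith
  refine ⟨?_, ?_, ?_⟩
  · intro h m M hmM
    rw [e3 h]
    exact NTP_mean hD hN _ m M fun i => hmM _ (e5 i)
  · intro h t ht h0 h11 hop
    rw [e3 h]
    obtain ⟨i, hi⟩ := e4 t ht hop
    exact NTP_one hD hN _ (fun i => h0 _ (e5 i)) i (h11 _ hi.le (e5 i))
  · intro g a b hg ha hab hb hG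
    let θ : Fin D × Fin N → ℝ := fun i => Real.arccos (e i)
    have hθ0 : ∀ i, 0 ≤ θ i := fun i => Real.arccos_nonneg _
    have hθπ : ∀ i, θ i ≤ Real.pi := fun i => Real.arccos_le_pi _
    have hcos : ∀ i, Real.cos (θ i) = e i := fun i =>
      Real.cos_arccos (abs_le.1 (e5 i)).1 (abs_le.1 (e5 i)).2
    have hT : ∀ j : ℕ, ∀ i, (Polynomial.Chebyshev.T ℝ (j : ℤ)).eval (e i) =
        Real.cos (j * θ i) := by
      intro j i
      rw [← hcos i, Polynomial.Chebyshev.T_real_cos]
      norm_num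
    have hsum : ∀ i, Summable (fun j : ℕ => g j * Real.cos (j * θ i)) := by
      intro i
      refine Summable.of_norm_bounded hg fun j => ?_
      rw [norm_mul, Real.norm_eq_abs, Real.norm_eq_abs]
      exact mul_le_of_le_one_right (abs_nonneg _) (Real.abs_cos_le_one _)
    have hy : yG c K P g x = (∑ i, ∑' j : ℕ, g j * Real.cos (j * θ i)) / (D * N) := by
      unfold yG
      have h4 : ∀ j : ℕ, g j * nt c K P (Polynomial.Chebyshev.T ℝ (j : ℤ)) x =
          (∑ i, g j * Real.cos (j * θ i)) / (D * N) := by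
        intro j
        rw [e3, mul_div_assoc', Finset.mul_sum]
        congr 1
        exact Finset.sum_congr rfl fun i _ => by rw [hT]
      simp only [h4]
      rw [tsum_div_const, Summable.tsum_finsetSum fun i _ => hsum i]
    rw [hy]
    have h01 := NTP_mean hD hN (fun i => ∑' j : ℕ, g j * Real.cos (j * θ i)) 0 1
      fun i => ⟨(hG (θ i)).1, (hG (θ i)).2.1⟩
    refine ⟨h01.1, h01.2, ?_, ?_⟩
    · intro hop
      have h5 : ∀ i, ∑' j : ℕ, g j * Real.cos (j * θ i) = 0 := by
        intro i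
        have h6 : |e i| ≤ Real.cos b := by
          have h7 := (e1 i).trans hop
          exact le_of_mul_le_mul_left h7 hK
        have h8 := abs_le.1 h6
        refine (hG (θ i)).2.2.1 ?_ ?_
        · by_contra h9
          push Not at h9
          have h10 := Real.cos_lt_cos_of_nonneg_of_le_pi (hθ0 i)
            (by linarith [Real.pi_pos]) h9
          rw [hcos] at h10
          linarith
        · by_contra h9
          push Not at h9
          have h10 := Real.cos_lt_cos_of_nonneg_of_le_pi (by linarith [Real.pi_pos])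
            (hθπ i) h9
          rw [hcos, Real.cos_pi_sub] at h10
          linarith
      rw [Finset.sum_congr rfl fun i _ => h5 i, Finset.sum_const_zero, zero_div]
    · intro hop
      have hca : 0 ≤ Real.cos a :=
        Real.cos_nonneg_of_neg_pi_div_two_le_of_le (by linarith [Real.pi_pos]) (by linarith)
      obtain ⟨i, hi⟩ := e4 (Real.cos a) hca hop
      refine NTP_one hD hN (fun i => ∑' j : ℕ, g j * Real.cos (j * θ i))
        (fun i => (hG (θ i)).1) i ?_
      rcases lt_abs.1 hi with h5 | h5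
      · refine le_of_eq ((hG (θ i)).2.2.2.1 (hθ0 i) ?_).symm
        by_contra h9
        push Not at h9
        have h10 := Real.cos_lt_cos_of_nonneg_of_le_pi ha.le (hθπ i) h9
        rw [hcos] at h10
        linarith
      · refine le_of_eq ((hG (θ i)).2.2.2.2 ?_ (hθπ i)).symm
        by_contra h9
        push Not at h9
        have h10 := Real.cos_lt_cos_of_nonneg_of_le_pi (hθ0 i)
          (by linarith [Real.pi_pos]) h9
        rw [hcos, Real.cos_pi_sub] at h10
        linarith

end Pool.Agent.QX
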