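import Pool.Agent.helper4.QX.SpecM

/-!
# Project QX, row SCA: strong convergence with matrix coefficients of exponential size
-/

set_option autoImplicit false

open MeasureTheory ProbabilityTheory Filter Set Polynomial
open Pool.Agent.QU Pool.Agent.RP

namespace Pool.Agent.QX

instance SCA_prob (ι : Type) [Fintype ι] : IsProbabilityMeasure (gau ι) := by
  unfold gau
  infer_instance

/-- integral of a function between `0` and `1` which vanishes off `S` -/
theorem SCA_int {α : Type} [MeasurableSpace α] (μ : Measure α) [IsProbabilityMeasure μ]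
    (f : α → ℝ) (S : Set α) (hf : Integrable f μ) (h1 : ∀ x, f x ≤ 1)
    (h2 : ∀ x, x ∉ S → f x = 0) : ∫ x, f x ∂μ ≤ μ.real S := by
  have h3 : ∀ x, f x ≤ (toMeasurable μ S).indicator (fun _ => (1 : ℝ)) x := by
    intro x
    by_cases hx : x ∈ toMeasurable μ S
    · rw [indicator_of_mem hx]
      exact h1 x
    · rw [indicator_of_notMem hx, h2 x fun h => hx (subset_toMeasurable μ S h)]
  have h4 : Integrable ((toMeasurable μ S).indicator (fun _ => (1 : ℝ))) μ :=
    (integrable_const 1).indicator (measurableSet_toMeasurable μ S)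
  have h5 := integral_mono hf h4 h3
  rw [integral_indicator_const _ (measurableSet_toMeasurable μ S), smul_eq_mul, mul_one] at h5
  have h6 : μ.real (toMeasurable μ S) = μ.real S := by
    unfold Measure.real
    rw [measure_toMeasurable]
  rwa [h6] at h5

theorem SCA_cos (a b : ℝ) (h : a ≤ b) : Real.cos a - Real.cos b ≤ b - a := by
  have h1 : Monotone (fun x : ℝ => x + Real.cos x) := by
    apply monotone_of_deriv_nonneg
    · exact differentiable_id.add Real.differentiable_cos
    · intro x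
      have h2 : deriv (fun x : ℝ => x + Real.cos x) x = 1 - Real.sin x := by
        have h3 := (hasDerivAt_id x).add (Real.hasDerivAt_cos x)
        have h4 := h3.deriv
        rw [sub_eq_add_neg]
        exact h4
      rw [h2]
      linarith [Real.sin_le_one x]
  have h2 := h1 h
  simp only at h2
  linarith

theorem SCA_summ (g : ℕ → ℝ) (κ : ℝ) (R : ℕ) (hR : 2 ≤ R) (hκ : 0 < κ)
    (h : ∀ j : ℕ, 1 ≤ j → |g j| ≤ 2 * (2 * (R : ℝ) / (κ * j)) ^ R) :
    Summable (fun j : ℕ => |g j|) := by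
  rw [← summable_nat_add_iff 1]
  have h1 : Summable (fun n : ℕ => 1 / ((n : ℝ)) ^ 2) := Real.summable_one_div_nat_pow.2 (by norm_num)
  have h2 := ((summable_nat_add_iff 1).2 h1).mul_left (2 * (2 * (R : ℝ) / κ) ^ R)
  refine Summable.of_nonneg_of_le (fun j => abs_nonneg _) (fun j => ?_) h2
  refine (h (j + 1) (by omega)).trans ?_
  have hj : (1 : ℝ) ≤ ((j + 1 : ℕ) : ℝ) := by exact_mod_cast Nat.le_add_left 1 j
  have h3 : (2 * (R : ℝ) / (κ * ((j + 1 : ℕ) : ℝ))) ^ R =
      (2 * (R : ℝ) / κ) ^ R / ((j + 1 : ℕ) : ℝ) ^ R := by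
    rw [← div_div, div_pow]
  rw [h3, mul_assoc, mul_one_div]
  refine mul_le_mul_of_nonneg_left ?_ (by norm_num)
  have h4 : ((j + 1 : ℕ) : ℝ) ^ 2 ≤ ((j + 1 : ℕ) : ℝ) ^ R := pow_le_pow_right₀ hj hR
  exact div_le_div_of_nonneg_left (by positivity) (by positivity) h4

theorem SCA (h1 : EXW_stmt) (h2 : TSF_stmt) (h3 : MRB_stmt) (h4 : NTP_stmt) (h5 : SUP_stmt)
    (h6 : GEX_stmt) (h7 : VAN_stmt) (h8 : NUM_stmt) : SCA_stmt := by
  obtain ⟨c, C, hc0, hc2, hC1, hw⟩ := h1
  have hc : EXWc c C := ⟨hc0, hc2, hC1, hw⟩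
  obtain ⟨C', hC', hG⟩ := h6 c C hc
  obtain ⟨N₀, hN₀, hnum⟩ := h8 C' hC'
  refine ⟨c, 1 / 100, by norm_num, N₀, hN₀, ?_⟩
  intro N hN D q P K r δ hD hP hS hU hReg hr hδ hK hqN hKN hDN
  have hN1 : 1 ≤ N := hN₀.trans hN
  have hN1' : (1 : ℝ) ≤ N := by exact_mod_cast hN1
  have hD' : (0 : ℝ) < D := by exact_mod_cast hD
  have hDNpos : (0 : ℝ) < D * N := mul_pos hD' (by linarith)
  by_cases hcase : K ≤ r + δ
  · have h9 : {x : GI N → ℝ | ¬ RepB (UR c x) P (r + δ)} = ∅ := by
      rw [Set.eq_empty_iff_forall_notMem]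
      intro x hx
      apply hx
      refine (h3 D N c x P (r + δ) (by linarith)).1.2 ?_
      exact ((h3 D N c x P K hK.le).2 hP hU).trans hcase
    rw [h9, measureReal_empty]
    exact (Real.exp_pos _).le
  · push Not at hcase
    obtain ⟨m, hm, hnum'⟩ := hnum N hN
    -- the length
    have hq' : ((max q 1 : ℕ) : ℝ) ≤ (N : ℝ) ^ (1 / 100 : ℝ) := by
      rw [Nat.cast_max, Nat.cast_one]
      exact max_le hqN (Real.one_le_rpow hN1' (by norm_num))
    have hS' : Sup P {w | w.norm ≤ max q 1} := fun i j γ hγ => (hS i j γ hγ).trans (le_max_left q 1)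
    -- the angles
    set a : ℝ := Real.arccos ((r + δ) / K) with ha
    set b : ℝ := Real.arccos ((r + δ / 2) / K) with hb
    have ht1 : (r + δ) / K < 1 := (div_lt_one hK).2 hcase
    have ht2 : (r + δ / 2) / K < (r + δ) / K := by
      rw [div_lt_div_iff_of_pos_right hK]
      linarith
    have ht3 : 0 < (r + δ / 2) / K := div_pos (by linarith) hK
    have ha0 : 0 < a := Real.arccos_pos.2 ht1
    have hcosa : Real.cos a = (r + δ) / K := Real.cos_arccos (by linarith) ht1.le
    have hcosb : Real.cos b = (r + δ / 2) / K := Real.cos_arccos (by linarith) (by linarith)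
    have hab : a < b := Real.arccos_lt_arccos (by linarith) ht2 ht1.le
    have hb2 : b ≤ Real.pi / 2 := Real.arccos_le_pi_div_two.2 ht3.le
    have hKa : K * Real.cos a = r + δ := by rw [hcosa, mul_div_cancel₀ _ hK.ne']
    have hKb : K * Real.cos b = r + δ / 2 := by rw [hcosb, mul_div_cancel₀ _ hK.ne']
    have hκ : 0 < b - a := by linarith
    have hκ2 : 1 / (b - a) ≤ 2 * (N : ℝ) ^ (1 / 100 : ℝ) := by
      have h9 := SCA_cos a b hab.le
      rw [hcosa, hcosb, ← sub_div] at h9
      have h10 : r + δ - (r + δ / 2) = δ / 2 := by ring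
      rw [h10] at h9
      have h11 : 0 < δ / 2 / K := by positivity
      calc 1 / (b - a) ≤ 1 / (δ / 2 / K) := one_div_le_one_div_of_le h11 h9
        _ = 2 * (K / δ) := by
            field_simp
        _ ≤ 2 * (N : ℝ) ^ (1 / 100 : ℝ) := mul_le_mul_of_nonneg_left hKN (by norm_num)
    obtain ⟨g, g0, g1, g2⟩ := h2 (12 * m + 2) a b (by omega) ha0 hab hb2
    obtain ⟨ν, hν⟩ := hG D (max q 1) m P K r a b g hD (le_max_right q 1) hm hK hr (by linarith) hP hU
      hReg hS' ha0 hab g0 g1
    obtain ⟨A, hA⟩ := h5 c C hc D (max q 1) P K r (δ / 2) hD hK hr (by linarith) hP hU hReg hS' (2 * m)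
    -- summability of the coefficients
    have hgs : Summable (fun j : ℕ => |g j|) := SCA_summ g (b - a) (12 * m + 2) (by omega) hκ g1
    have hy : ∀ (N' : ℕ) (x : GI N' → ℝ), 1 ≤ N' → 0 ≤ yG c K P g x ∧ yG c K P g x ≤ 1 ∧
        (opn c x P ≤ K * Real.cos b → yG c K P g x = 0) ∧
        (K * Real.cos a < opn c x P → 1 / (D * N' : ℝ) ≤ yG c K P g x) := fun N' x hN' =>
      (h4 D N' c K x P hD hN' hK hP hU).2.2 g a b hgs ha0 hab hb2 g2
    have hvan := h7 (fun N' => ∫ x, yG c K P g x ∂(gau (GI N'))) ν m A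
      (4 * (2 * ((12 * m + 2 : ℕ) : ℝ) / (b - a)) ^ (12 * m + 2) *
        (C' * ((max q 1 : ℕ) : ℝ) ^ 12 * (m : ℝ) ^ 6) ^ m)
      (fun N' hN' => (hν N' hN').2) (fun N' hN' => by
        have h9 := SCA_int (gau (GI N')) (fun x => yG c K P g x) {x | r + δ / 2 < opn c x P}
          (hν N' hN').1 (fun x => (hy N' x hN').2.1) (fun x hx => by
            refine (hy N' x hN').2.2.1 ?_
            rw [hKb]
            exact not_lt.1 hx)
        rw [abs_of_nonneg (integral_nonneg fun x => (hy N' x hN').1)]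
        exact h9.trans (hA N' hN')) N hN1
    have hmk := mul_meas_ge_le_integral_of_nonneg (μ := gau (GI N))
      (f := fun x => yG c K P g x) (Filter.Eventually.of_forall fun x => (hy N x hN1).1)
      (hν N hN1).1 (1 / (D * N : ℝ))
    have hsub : (gau (GI N)).real {x : GI N → ℝ | ¬ RepB (UR c x) P (r + δ)} ≤
        (gau (GI N)).real {x : GI N → ℝ | 1 / (D * N : ℝ) ≤ yG c K P g x} := by
      refine measureReal_mono ?_ (measure_ne_top _ _)
      intro x hx
      refine (hy N x hN1).2.2.2 ?_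
      rw [hKa]
      by_contra h9
      push Not at h9
      exact hx ((h3 D N c x P (r + δ) (by linarith)).1.2 h9)
    have hfin := hnum' D (max q 1) (b - a) hκ hq' hκ2 hDN
    have hmk2 : (gau (GI N)).real {x : GI N → ℝ | 1 / (D * N : ℝ) ≤ yG c K P g x} ≤
        (D * N : ℝ) * ∫ x, yG c K P g x ∂(gau (GI N)) := by
      have h9 := mul_le_mul_of_nonneg_left hmk hDNpos.le
      rw [← mul_assoc, mul_one_div_cancel hDNpos.ne', one_mul] at h9
      exact h9
    refine hsub.trans (hmk2.trans (le_trans ?_ hfin))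
    exact mul_le_mul_of_nonneg_left ((le_abs_self _).trans hvan) hDNpos.le

end Pool.Agent.QX
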