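import Pool.Agent.helper62.QX.SpecT

/-!
# Project QX, row EXO: the expected number of outliers tends to zero (scalar coefficients)
-/

set_option autoImplicit false

open Filter Set Polynomial
open Pool.Agent.QU Pool.Agent.RP

namespace Pool.Agent.QX

theorem EXO_card (N : ℕ) : (Fintype.card (Fin 2 → Equiv.Perm (Fin N)) : ℝ) =
    (N.factorial : ℝ) ^ 2 := by
  rw [Fintype.card_fun, Fintype.card_perm, Fintype.card_fin, Fintype.card_fin]
  push_cast
  rfl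

/-- the analytic part of SCS -/
theorem EXO_TT (a : MonoidAlgebra ℂ F2) (K r ε : ℝ) (ha : adj a = a) (hr : regNorm a < r)
    (hε : 0 < ε) (hK1 : ∑ w ∈ a.coeff.support, ‖a.coeff w‖ ≤ K) (hK2 : r ≤ K) :
    ∀ᶠ N : ℕ in atTop, 0 < N ∧ ∃ h : ℝ[X], h.eval 0 = 0 ∧ (∀ x, |x| ≤ K → 0 ≤ h.eval x) ∧
      (∀ x, r ≤ |x| → |x| ≤ K → 1 ≤ h.eval x) ∧ TT N (pev h a) ≤ ε := by
  have hρ0 : 0 ≤ regNorm a := (A_RNB F2 a a).1
  obtain ⟨q, hq⟩ : ∃ q : ℕ, ∀ t ∈ a.coeff.support, t.norm ≤ q :=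
    ⟨a.coeff.support.sup FreeGroup.norm, fun t ht => Finset.le_sup (f := FreeGroup.norm) ht⟩
  obtain ⟨D₀, hD₀, hT⟩ := A_TST (regNorm a) r K hρ0 hr hK2
  have hB : 1 ≤ (ball q).card := by
    apply Finset.card_pos.mpr
    exact ⟨1, (A_BAL q 1).2 (by simp)⟩
  obtain ⟨e1, e2⟩ := A_NUA q D₀ (ball q).card
  filter_upwards [e1, e2.eventually (gt_mem_nhds hε)] with N hN hlt
  obtain ⟨hs, hN8⟩ := hN
  set s := Nat.log 4 N with hsdef
  obtain ⟨h, hdeg, hh0, hb1, hb2, hmaj⟩ := hT s hs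
  set b := pev h a with hb
  set L := nuL q D₀ s with hL
  have hL1 : 1 ≤ L := by rw [hL]; unfold nuL; omega
  have hqL : q * (D₀ * s) ≤ L := by rw [hL]; unfold nuL; omega
  obtain ⟨m1, m2, m3⟩ := A_MUB a q (D₀ * s) L h hq hdeg hqL hL1
  set e := nuE q D₀ (ball q).card s with he
  have hcoef : (1 : ℝ) ≤ (L : ℝ) * (((D₀ * s : ℕ) : ℝ) + 1) ^ 3 * ((ball q).card : ℝ) ^ 3 := by
    have t1 : (1 : ℝ) ≤ L := by exact_mod_cast hL1
    have t2 : (1 : ℝ) ≤ (((D₀ * s : ℕ) : ℝ) + 1) ^ 3 :=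
      one_le_pow₀ (by linarith [Nat.cast_nonneg (α := ℝ) (D₀ * s)])
    have t3 : (1 : ℝ) ≤ ((ball q).card : ℝ) ^ 3 := one_le_pow₀ (by exact_mod_cast hB)
    exact one_le_mul_of_one_le_of_one_le (one_le_mul_of_one_le_of_one_le t1 t2) t3
  have hs64 : (0 : ℝ) ≤ (1 / 64) ^ s := by positivity
  have m2' : |(b.coeff 1).re| ≤ e := by
    refine m2.trans (hmaj.trans ?_)
    rw [he]
    unfold nuE
    exact le_mul_of_one_le_left hs64 hcoef
  have m3' : |∑ w ∈ b.coeff.support.erase 1, (b.coeff w).re * ((dv L w : ℝ) - 1)| ≤ e := by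
    refine m3.trans ?_
    rw [he]
    unfold nuE
    exact mul_le_mul_of_nonneg_left hmaj (by linarith)
  have hTR := fun (N' : ℕ) (hN' : 0 < N') => A_TRM N' a K (2 ^ s) r h hN' ha hK1
    (hρ0.trans hr.le) hh0 hb1 hb2
  have hfac : ∀ N' : ℕ, (0 : ℝ) < (N'.factorial : ℝ) ^ 2 := fun N' => by positivity
  have hTT : ∀ N' : ℕ, L ≤ N' → |TT N' b| ≤ 2 ^ s * (N' : ℝ) := by
    intro N' hN'
    have hpos : 0 < N' := by omega
    have hsum := SCS_avg N' b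
    have l0 : 0 ≤ ∑ σ : Fin 2 → Equiv.Perm (Fin N'), tau N' b (FreeGroup.lift σ) :=
      Finset.sum_nonneg fun σ _ => (hTR N' hpos (FreeGroup.lift σ)).1
    have l1 : ∑ σ : Fin 2 → Equiv.Perm (Fin N'), tau N' b (FreeGroup.lift σ) ≤
        (N'.factorial : ℝ) ^ 2 * (2 ^ s * (N' : ℝ)) := by
      refine (Finset.sum_le_sum fun σ _ => (hTR N' hpos (FreeGroup.lift σ)).2.1).trans ?_
      rw [Finset.sum_const, nsmul_eq_mul, Finset.card_univ, EXO_card]
    rw [hsum] at l0 l1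
    have p0 : 0 ≤ TT N' b := nonneg_of_mul_nonneg_right l0 (hfac N')
    rw [abs_of_nonneg p0]
    exact le_of_mul_le_mul_left l1 (hfac N')
  have hA := A_ASY b L (2 ^ s) e hL1 m1 hTT m2' m3' N hN8
  have hNpos : 0 < N := by
    have : 0 < 8 * (2 * L + 1) ^ 2 := by positivity
    omega
  exact ⟨hNpos, h, hh0, fun x hx => (hb1 x hx).1, hb2, (le_abs_self _).trans (hA.trans hlt.le)⟩

/-- the norm of `R1 ρ a` is at most the sum of the coefficients -/
theorem EXO_norm {M : ℕ} (ρ : F2 →* Matrix.unitaryGroup (Fin M) ℂ) (a : MonoidAlgebra ℂ F2) :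
    ‖Matrix.toEuclideanCLM (n := Fin M) (𝕜 := ℂ) (R1 ρ a)‖ ≤
      ∑ w ∈ a.coeff.support, ‖a.coeff w‖ := by
  have h1 : R1 ρ a = ∑ w ∈ a.coeff.support, a.coeff w • (ρ w : Matrix (Fin M) (Fin M) ℂ) := by
    ext i j
    rw [Matrix.sum_apply]
    rfl
  rw [h1, map_sum]
  refine (norm_sum_le _ _).trans (Finset.sum_le_sum fun w _ => ?_)
  rw [map_smul, norm_smul]
  refine mul_le_of_le_one_right (norm_nonneg _) ?_
  refine ContinuousLinearMap.opNorm_le_bound _ zero_le_one fun v => ?_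
  have h2 : ‖isoU M (ρ w) v‖ = ‖v‖ := LinearIsometryEquiv.norm_map _ _
  rw [one_mul]
  exact le_of_eq h2

theorem EXO (h1 : GMA_stmt) (h2 : SPV_stmt) (_h3 : SQC_stmt) : EXO_stmt := by
  intro Φ hΦ a r ε ha hr hε
  have hρ0 : 0 ≤ regNorm a := (A_RNB F2 a a).1
  set K : ℝ := max (∑ w ∈ a.coeff.support, ‖a.coeff w‖) r with hK
  filter_upwards [EXO_TT a K r ε ha hr hε (le_max_left _ _) (le_max_right _ _)] with N hN
  obtain ⟨hN0, h, hh0, hpos, hone, hTT⟩ := hN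
  have key : ∀ σ : Fin 2 → Equiv.Perm (Fin N), ∃ k : ℕ, Cod (R1 (rs (Φ N) σ) a) r k ∧
      (k : ℝ) ≤ tau N (pev h a) (FreeGroup.lift σ) := by
    intro σ
    obtain ⟨_, g2, g3, g4, _⟩ := h1 1 (N - 1) (rs (Φ N) σ)
    have hA : (R1 (rs (Φ N) σ) a).IsHermitian := by
      have := g2 a
      rw [ha] at this
      exact this.symm
    obtain ⟨ev, s1, s2, _, s4, _⟩ := h2 (Fin (N - 1)) (R1 (rs (Φ N) σ) a) hA
    have hevK : ∀ i, |ev i| ≤ K := fun i =>
      (s1 i).trans ((EXO_norm _ a).trans (le_max_left _ _))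
    refine ⟨_, s4 r (hρ0.trans hr.le), ?_⟩
    have htau : tau N (pev h a) (FreeGroup.lift σ) = ∑ i, h.eval (ev i) := by
      have e1 := s2 h
      rw [← g4, g3] at e1
      have e2 := congrArg Complex.re e1
      rw [Complex.ofReal_re, Complex.re_sum] at e2
      rw [← e2]
      unfold tau
      refine Finset.sum_congr rfl fun w _ => ?_
      have e3 : Matrix.trace ((rs (Φ N) σ w : Matrix.unitaryGroup (Fin (N - 1)) ℂ) :
          Matrix (Fin (N - 1)) (Fin (N - 1)) ℂ) = (((fx (FreeGroup.lift σ w) : ℝ) - 1 : ℝ) : ℂ) := by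
        have e4 := (hΦ N hN0).tr (FreeGroup.lift σ w)
        push_cast
        exact e4
      rw [e3, Complex.re_mul_ofReal]
    rw [htau, Finset.card_filter]
    push_cast
    refine Finset.sum_le_sum fun i _ => ?_
    split_ifs with hi
    · exact hone _ hi.le (hevK i)
    · exact hpos _ (hevK i)
  choose k hk1 hk2 using key
  refine ⟨k, hk1, ?_⟩
  have hfac : (0 : ℝ) < (N.factorial : ℝ) ^ 2 := by positivity
  unfold av
  rw [div_le_iff₀ hfac]
  calc ∑ σ, (k σ : ℝ) ≤ ∑ σ : Fin 2 → Equiv.Perm (Fin N), tau N (pev h a) (FreeGroup.lift σ) :=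
        Finset.sum_le_sum fun σ _ => hk2 σ
    _ = (N.factorial : ℝ) ^ 2 * TT N (pev h a) := SCS_avg N _
    _ ≤ (N.factorial : ℝ) ^ 2 * ε := mul_le_mul_of_nonneg_left hTT hfac.le
    _ = ε * (N.factorial : ℝ) ^ 2 := mul_comm _ _

end Pool.Agent.QX
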