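import Pool.Agent.helper62.QX.SpecT

/-!
# Project QX, row TAS: strong convergence of random permutations, matrix coefficients of
polynomial size
-/

set_option autoImplicit false

open Filter Set Polynomial
open Pool.Agent.QU Pool.Agent.RP

namespace Pool.Agent.QX

theorem TAS_summ (g : ℕ → ℝ) (κ : ℝ) (hκ : 0 < κ)
    (h : ∀ j : ℕ, 1 ≤ j → |g j| ≤ 2 * (2 * ((10 : ℕ) : ℝ) / (κ * j)) ^ 10) :
    Summable (fun j : ℕ => |g j|) := by
  rw [← summable_nat_add_iff 1]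
  have h1 : Summable (fun n : ℕ => 1 / ((n : ℝ)) ^ 2) := Real.summable_one_div_nat_pow.2 (by norm_num)
  have h2 := ((summable_nat_add_iff 1).2 h1).mul_left (2 * (2 * ((10 : ℕ) : ℝ) / κ) ^ 10)
  refine Summable.of_nonneg_of_le (fun j => abs_nonneg _) (fun j => ?_) h2
  refine (h (j + 1) (by omega)).trans ?_
  have hj : (1 : ℝ) ≤ ((j + 1 : ℕ) : ℝ) := by exact_mod_cast Nat.le_add_left 1 j
  have h3 : (2 * ((10 : ℕ) : ℝ) / (κ * ((j + 1 : ℕ) : ℝ))) ^ 10 =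
      (2 * ((10 : ℕ) : ℝ) / κ) ^ 10 / ((j + 1 : ℕ) : ℝ) ^ 10 := by
    rw [← div_div, div_pow]
  rw [h3, mul_assoc, mul_one_div]
  refine mul_le_mul_of_nonneg_left ?_ (by norm_num)
  have h4 : ((j + 1 : ℕ) : ℝ) ^ 2 ≤ ((j + 1 : ℕ) : ℝ) ^ 10 := pow_le_pow_right₀ hj (by norm_num)
  exact div_le_div_of_nonneg_left (by positivity) (by positivity) h4

theorem TAS_cos (a b : ℝ) (h : a ≤ b) : Real.cos a - Real.cos b ≤ b - a := by
  have h1 := Real.abs_cos_sub_cos_le a b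
  have h2 := (le_abs_self _).trans h1
  rw [abs_sub_comm, abs_of_nonneg (by linarith : 0 ≤ b - a)] at h2
  exact h2

/-- numbers -/
theorem TAS_num (C : ℝ) (hC : 1 ≤ C) : ∃ N₀ : ℕ, 1 ≤ N₀ ∧ ∀ N : ℕ, N₀ ≤ N → ∀ (D q : ℕ) (κ : ℝ),
    0 < κ → (q : ℝ) ≤ (N : ℝ) ^ (1 / 40 : ℝ) → 1 / κ ≤ 2 * (N : ℝ) ^ (1 / 40 : ℝ) →
    (D : ℝ) ≤ (N : ℝ) ^ (1 / 40 : ℝ) →
    (D * N : ℝ) * (C * (q : ℝ) ^ 8 * (1 / κ) ^ 10 / (N : ℝ) ^ 2) ≤ (N : ℝ) ^ (-(1 / 40) : ℝ) := by
  have h1 : Tendsto (fun N : ℕ => (N : ℝ) ^ (1 / 2 : ℝ)) atTop atTop :=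
    (tendsto_rpow_atTop (by norm_num)).comp tendsto_natCast_atTop_atTop
  obtain ⟨N₁, hN₁⟩ := Filter.eventually_atTop.1 (h1.eventually_ge_atTop (1024 * C))
  refine ⟨max N₁ 1, le_max_right _ _, ?_⟩
  intro N hN D q κ hκ hq hκ2 hD
  have hN1 : 1 ≤ N := (le_max_right _ _).trans hN
  have hN0 : (0 : ℝ) < N := by exact_mod_cast hN1
  have hbig := hN₁ N ((le_max_left _ _).trans hN)
  set x : ℝ := (N : ℝ) ^ (1 / 40 : ℝ) with hx
  have hx0 : 0 < x := Real.rpow_pos_of_pos hN0 _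
  have e1 : (N : ℝ) ^ (-(1 / 40) : ℝ) = x⁻¹ := by
    rw [Real.rpow_neg hN0.le]
  have e2 : x ^ 40 = N := by
    rw [hx, ← Real.rpow_natCast, ← Real.rpow_mul hN0.le]
    norm_num
  have e3 : (N : ℝ) ^ (1 / 2 : ℝ) = x ^ 20 := by
    rw [hx, ← Real.rpow_natCast, ← Real.rpow_mul hN0.le]
    norm_num
  rw [e3] at hbig
  have hκ0 : 0 ≤ 1 / κ := by positivity
  have e4 : (1 / κ) ^ 10 ≤ (2 * x) ^ 10 := pow_le_pow_left₀ hκ0 hκ2 10
  have e5 : (q : ℝ) ^ 8 ≤ x ^ 8 := pow_le_pow_left₀ (Nat.cast_nonneg q) hq 8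
  have e6 : (D * N : ℝ) * (C * (q : ℝ) ^ 8 * (1 / κ) ^ 10 / (N : ℝ) ^ 2) =
      D * (C * (q : ℝ) ^ 8 * (1 / κ) ^ 10) / N := by
    field_simp
  rw [e6, e1, div_le_iff₀ hN0, ← e2]
  calc (D : ℝ) * (C * (q : ℝ) ^ 8 * (1 / κ) ^ 10) ≤ x * (C * x ^ 8 * (2 * x) ^ 10) := by gcongr
    _ = 1024 * C * x ^ 19 := by ring
    _ ≤ x ^ 20 * x ^ 19 := mul_le_mul_of_nonneg_right hbig (by positivity)
    _ = x⁻¹ * x ^ 40 := by
        field_simp

theorem TAS_mem {D : ℕ} (N : ℕ) (P : Mat D F2) (r : ℝ) (σ : Fin 2 → Equiv.Perm (Fin N))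
    (h : σ ∈ badM N P r) : ¬ RepZ (FreeGroup.lift σ) P r := by
  classical
  unfold badM at h
  exact (Finset.mem_filter.1 h).2

theorem TAS (h1 : TSF_stmt) (h2 : SDR_stmt) (h3 : TRB_stmt) (h4 : TNP_stmt) (h5 : MXO_stmt)
    (h6 : TGX_stmt) (h7 : TVN_stmt) : TAS_stmt := by
  obtain ⟨C, hC, hG⟩ := h6
  obtain ⟨N₀, hN₀, hnum⟩ := TAS_num C hC
  -- the representations
  have hΦex : ∃ Φ : ∀ N : ℕ, Equiv.Perm (Fin N) →* Matrix.unitaryGroup (Fin (N - 1)) ℂ,
      ∀ N, 1 ≤ N → StdR (Φ N) := by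
    choose! Φ hΦ using h2
    exact ⟨Φ, hΦ⟩
  obtain ⟨Φ, hΦ⟩ := hΦex
  refine ⟨1 / 40, by norm_num, N₀, hN₀, ?_⟩
  intro N hN D q P K r δ hD hP hS hU hReg hr hδ hK hqN hKN hDN
  have hN1 : 1 ≤ N := hN₀.trans hN
  have hN1' : (1 : ℝ) ≤ N := by exact_mod_cast hN1
  have hD' : (0 : ℝ) < D := by exact_mod_cast hD
  have hDNpos : (0 : ℝ) < D * N := mul_pos hD' (by linarith)
  have hfac : (0 : ℝ) < (N.factorial : ℝ) ^ 2 := by positivity
  have hRHS : (0 : ℝ) ≤ (N : ℝ) ^ (-(1 / 40) : ℝ) * (N.factorial : ℝ) ^ 2 := by positivity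
  by_cases hcase : K ≤ r + δ
  · have h9 : badM N P (r + δ) = ∅ := by
      rw [Finset.eq_empty_iff_forall_notMem]
      intro σ hx
      refine TAS_mem N P (r + δ) σ hx
        ((h3 D N (Φ N) P σ (r + δ) (hΦ N hN1) (by linarith)).1 ?_)
      exact ((h3 D N (Φ N) P σ K (hΦ N hN1) hK.le).2 hP hU).trans hcase
    rw [h9, Finset.card_empty, Nat.cast_zero]
    exact hRHS
  · push Not at hcase
    -- the length
    have hq' : ((max q 1 : ℕ) : ℝ) ≤ (N : ℝ) ^ (1 / 40 : ℝ) := by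
      rw [Nat.cast_max, Nat.cast_one]
      exact max_le hqN (Real.one_le_rpow hN1' (by norm_num))
    have hS' : Sup P {w | w.norm ≤ max q 1} := fun i j γ hγ => (hS i j γ hγ).trans (le_max_left q 1)
    -- the angles
    set a : ℝ := Real.arccos ((r + δ) / K) with ha
    set b : ℝ := Real.arccos ((r + δ / 2) / K) with hb
    have ht1 : (r + δ) / K < 1 := (div_lt_one hK).2 hcase
    have ht2 : (r + δ / 2) / K < (r + δ) / K := by
      rw [div_lt_div_iff_of_pos_right hK]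
      linarith
    have ht3 : 0 < (r + δ / 2) / K := div_pos (by linarith) hK
    have ha0 : 0 < a := Real.arccos_pos.2 ht1
    have hcosa : Real.cos a = (r + δ) / K := Real.cos_arccos (by linarith) ht1.le
    have hcosb : Real.cos b = (r + δ / 2) / K := Real.cos_arccos (by linarith) (by linarith)
    have hab : a < b := Real.arccos_lt_arccos (by linarith) ht2 ht1.le
    have hb2 : b ≤ Real.pi / 2 := Real.arccos_le_pi_div_two.2 ht3.le
    have hKa : K * Real.cos a = r + δ := by rw [hcosa, mul_div_cancel₀ _ hK.ne']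
    have hKb : K * Real.cos b = r + δ / 2 := by rw [hcosb, mul_div_cancel₀ _ hK.ne']
    have hκ : 0 < b - a := by linarith
    have hκ2 : 1 / (b - a) ≤ 2 * (N : ℝ) ^ (1 / 40 : ℝ) := by
      have h9 := TAS_cos a b hab.le
      rw [hcosa, hcosb, ← sub_div] at h9
      have h10 : r + δ - (r + δ / 2) = δ / 2 := by ring
      rw [h10] at h9
      have h11 : 0 < δ / 2 / K := by positivity
      calc 1 / (b - a) ≤ 1 / (δ / 2 / K) := one_div_le_one_div_of_le h11 h9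
        _ = 2 * (K / δ) := by
            field_simp
        _ ≤ 2 * (N : ℝ) ^ (1 / 40 : ℝ) := mul_le_mul_of_nonneg_left hKN (by norm_num)
    obtain ⟨g, g0, g1, g2⟩ := h1 10 a b (by norm_num) ha0 hab hb2
    obtain ⟨ν₀, ν₁, hν⟩ := hG Φ hΦ D (max q 1) P K a b g hD (le_max_right q 1) hK hP hU hS' ha0 hab
      g0 g1
    have hgs : Summable (fun j : ℕ => |g j|) := TAS_summ g (b - a) hκ g1
    have hy : ∀ (N' : ℕ) (σ : Fin 2 → Equiv.Perm (Fin N')), 1 ≤ N' →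
        0 ≤ yp (Φ N') K P g σ ∧
        (∀ p k : ℕ, 1 ≤ p → Cod (GM (rs (Φ N') σ) P ^ p) ((K * Real.cos b) ^ p) k →
          yp (Φ N') K P g σ ≤ k / (D * N' : ℝ)) ∧
        (K * Real.cos a < gn (rs (Φ N') σ) P → 1 / (D * N' : ℝ) ≤ yp (Φ N') K P g σ) :=
      fun N' σ hN' => (h4 D N' (Φ N') P K σ (hΦ N' hN') hD hN' hK hP hU).2.2 g a b hgs ha0 hab
        hb2 g2
    have hav0 : ∀ N' : ℕ, 1 ≤ N' → 0 ≤ av (yp (Φ N') K P g) := by
      intro N' hN'
      unfold av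
      exact div_nonneg (Finset.sum_nonneg fun σ _ => (hy N' σ hN').1) (by positivity)
    -- the a priori bound
    obtain ⟨p, hp, hout⟩ := h5 Φ hΦ D P r (δ / 2) hD hReg hr (by linarith)
    have hsmall : ∀ ε : ℝ, 0 < ε → ∀ᶠ N' : ℕ in atTop, |av (yp (Φ N') K P g)| ≤ ε / N' := by
      intro ε hε
      filter_upwards [hout ε hε, Filter.eventually_ge_atTop 1] with N' hk hN'
      obtain ⟨k, hk1, hk2⟩ := hk
      have hN'0 : (0 : ℝ) < N' := by exact_mod_cast hN'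
      have hfac' : (0 : ℝ) < (N'.factorial : ℝ) ^ 2 := by positivity
      rw [abs_of_nonneg (hav0 N' hN')]
      have h9 : av (yp (Φ N') K P g) ≤ av (fun σ => (k σ : ℝ)) / (D * N') := by
        unfold av
        rw [div_div, mul_comm ((N'.factorial : ℝ) ^ 2) _, ← div_div,
          div_le_div_iff_of_pos_right hfac', Finset.sum_div]
        refine Finset.sum_le_sum fun σ _ => (hy N' σ hN').2.1 p (k σ) hp ?_
        rw [hKb]
        exact hk1 σ
      refine h9.trans ?_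
      have h10 : (1 : ℝ) ≤ D := by exact_mod_cast hD
      calc av (fun σ => (k σ : ℝ)) / (D * N') ≤ ε / (D * N') := by gcongr
        _ ≤ ε / N' := by
            refine div_le_div_of_nonneg_left hε.le hN'0 ?_
            nlinarith
    have hfin := h7 (fun N' => av (yp (Φ N') K P g)) ν₀ ν₁
      (C * ((max q 1 : ℕ) : ℝ) ^ 8 * (1 / (b - a)) ^ 10) hν hsmall N hN1
    have hn := hnum N hN D (max q 1) (b - a) hκ hq' hκ2 hDN
    -- Markov
    have hbad : ((badM N P (r + δ)).card : ℝ) ≤ (D * N : ℝ) *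
        (av (yp (Φ N) K P g) * (N.factorial : ℝ) ^ 2) := by
      have h9 : av (yp (Φ N) K P g) * (N.factorial : ℝ) ^ 2 = ∑ σ, yp (Φ N) K P g σ := by
        unfold av
        rw [div_mul_cancel₀ _ hfac.ne']
      rw [h9, Finset.mul_sum]
      calc ((badM N P (r + δ)).card : ℝ) = ∑ σ ∈ badM N P (r + δ), (1 : ℝ) := by simp
        _ ≤ ∑ σ ∈ badM N P (r + δ), (D * N : ℝ) * yp (Φ N) K P g σ := by
            refine Finset.sum_le_sum fun σ hσ => ?_
            have h10 : K * Real.cos a < gn (rs (Φ N) σ) P := by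
              rw [hKa]
              by_contra h11
              push Not at h11
              exact TAS_mem N P (r + δ) σ hσ
                ((h3 D N (Φ N) P σ (r + δ) (hΦ N hN1) (by linarith)).1 h11)
            have h12 := (hy N σ hN1).2.2 h10
            rw [div_le_iff₀' hDNpos] at h12
            exact h12
        _ ≤ ∑ σ, (D * N : ℝ) * yp (Φ N) K P g σ :=
            Finset.sum_le_univ_sum_of_nonneg fun σ =>
              mul_nonneg hDNpos.le (hy N σ hN1).1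
    refine hbad.trans ?_
    rw [← mul_assoc]
    refine mul_le_mul_of_nonneg_right (le_trans ?_ hn) hfac.le
    exact mul_le_mul_of_nonneg_left ((le_abs_self _).trans hfin) hDNpos.le

end Pool.Agent.QX
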