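import Pool.Agent.helper62.QX.SpecT

/-!
# Project QX, row TGX: expansion of the mean of the trace of a test function, random permutations
-/

set_option autoImplicit false

open Filter Set Polynomial
open Pool.Agent.QU Pool.Agent.RP

namespace Pool.Agent.QX

theorem TGX_sum : Summable (fun j : ℕ => 1 / ((j : ℝ) + 1) ^ 2) ∧
    ∑' j : ℕ, 1 / ((j : ℝ) + 1) ^ 2 ≤ 2 := by
  have h0 := hasSum_zeta_two
  have h1 : Summable (fun n : ℕ => 1 / (n : ℝ) ^ 2) := h0.summable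
  have h2 := (summable_nat_add_iff 1).2 h1
  have h3 : (fun j : ℕ => 1 / ((j : ℝ) + 1) ^ 2) = fun n : ℕ => 1 / ((n + 1 : ℕ) : ℝ) ^ 2 := by
    funext j
    push_cast
    rfl
  rw [h3]
  refine ⟨h2, ?_⟩
  have h4 := h1.tsum_eq_zero_add
  rw [h0.tsum_eq] at h4
  have h5 : (1 : ℝ) / ((0 : ℕ) : ℝ) ^ 2 = 0 := by norm_num
  rw [h5, zero_add] at h4
  rw [← h4]
  have h6 := Real.pi_lt_d2
  have h7 := Real.pi_pos
  nlinarith

theorem TGX_card (N : ℕ) : (Fintype.card (Fin 2 → Equiv.Perm (Fin N)) : ℝ) =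
    (N.factorial : ℝ) ^ 2 := by
  rw [Fintype.card_fun, Fintype.card_perm, Fintype.card_fin, Fintype.card_fin]
  push_cast
  rfl

theorem TGX_av_const {N : ℕ} (c : ℝ) :
    av (fun _ : Fin 2 → Equiv.Perm (Fin N) => c) = c := by
  have hfac : (0 : ℝ) < (N.factorial : ℝ) ^ 2 := by positivity
  unfold av
  rw [Finset.sum_const, nsmul_eq_mul, Finset.card_univ, TGX_card, mul_div_cancel_left₀ _ hfac.ne']

theorem TGX_av_abs {N : ℕ} (X : (Fin 2 → Equiv.Perm (Fin N)) → ℝ) (c : ℝ)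
    (h : ∀ σ, |X σ| ≤ c) : |av X| ≤ c := by
  have hfac : (0 : ℝ) < (N.factorial : ℝ) ^ 2 := by positivity
  unfold av
  rw [abs_div, abs_of_pos hfac, div_le_iff₀ hfac]
  refine (Finset.abs_sum_le_sum_abs _ _).trans ((Finset.sum_le_sum fun σ _ => h σ).trans ?_)
  rw [Finset.sum_const, nsmul_eq_mul, Finset.card_univ, TGX_card, mul_comm]

theorem TGX (h1 : TEX_stmt) (h2 : BTR_stmt) (h3 : TNP_stmt) : TGX_stmt := by
  obtain ⟨C₀, hC₀, hX⟩ := h1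
  refine ⟨4 * 20 ^ 10 * C₀, by nlinarith, ?_⟩
  intro Φ hΦ D q P K a b g hD hq hK hP hU hS ha hab hg0 hg
  obtain ⟨hz1, hz2⟩ := TGX_sum
  set κ : ℝ := b - a with hκ
  have hκ0 : 0 < κ := by rw [hκ]; linarith
  -- the coefficients for one polynomial
  have hφ : ∀ j : ℕ, 1 ≤ j → ∃ φ₀ φ₁ : ℝ, |φ₀| ≤ C₀ * ((q * j : ℕ) : ℝ) ^ 8 ∧
      |φ₁| ≤ C₀ * ((q * j : ℕ) : ℝ) ^ 8 ∧ ∀ N : ℕ, 1 ≤ N →
        |av (np (Φ N) K P (Polynomial.Chebyshev.T ℝ (j : ℤ))) - φ₀ - φ₁ / N| ≤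
          C₀ * ((q * j : ℕ) : ℝ) ^ 8 / (N : ℝ) ^ 2 := by
    intro j hj
    have hdeg : (Polynomial.Chebyshev.T ℝ (j : ℤ)).natDegree ≤ j := by
      rw [Polynomial.Chebyshev.natDegree_T, Int.natAbs_natCast]
    have hL : 1 ≤ q * j := Nat.one_le_iff_ne_zero.2 (by positivity)
    have hav : ∀ N : ℕ, 1 ≤ N → av (np (Φ N) K P (Polynomial.Chebyshev.T ℝ (j : ℤ))) =
        TT N (bT K P (Polynomial.Chebyshev.T ℝ (j : ℤ))) / N := fun N hN =>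
      (h2 D N (Φ N) P K (Polynomial.Chebyshev.T ℝ (j : ℤ)) (hΦ N hN) hD hN).2.1
    have hsup : ∀ w ∈ (bT K P (Polynomial.Chebyshev.T ℝ (j : ℤ))).coeff.support, w.norm ≤ q * j :=
      fun w hw => ((h2 D 1 (Φ 1) P K (Polynomial.Chebyshev.T ℝ (j : ℤ)) (hΦ 1 le_rfl) hD
        le_rfl).2.2 q hS w hw).trans (Nat.mul_le_mul_left q hdeg)
    have hTT : ∀ N : ℕ, 1 ≤ N → |TT N (bT K P (Polynomial.Chebyshev.T ℝ (j : ℤ)))| ≤ N := by
      intro N hN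
      have hN' : (0 : ℝ) < N := by exact_mod_cast hN
      have e1 : |av (np (Φ N) K P (Polynomial.Chebyshev.T ℝ (j : ℤ)))| ≤ 1 := by
        refine TGX_av_abs _ 1 fun σ => ?_
        rw [abs_le]
        refine (h3 D N (Φ N) P K σ (hΦ N hN) hD hN hK hP hU).1
          (Polynomial.Chebyshev.T ℝ (j : ℤ)) (-1) 1 (by norm_num) zero_le_one ?_
        intro t ht
        have h5 : (Polynomial.Chebyshev.T ℝ (j : ℤ)).eval t = Real.cos (j * Real.arccos t) := by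
          conv_lhs => rw [← Real.cos_arccos (abs_le.1 ht).1 (abs_le.1 ht).2]
          rw [Polynomial.Chebyshev.T_real_cos]
          norm_num
        rw [h5]
        exact abs_le.1 (Real.abs_cos_le_one _)
      rw [hav N hN, abs_div, abs_of_pos hN', div_le_one hN'] at e1
      exact e1
    obtain ⟨φ₀, φ₁, f1, f2, f3⟩ := hX _ (q * j) hL hsup hTT
    refine ⟨φ₀, φ₁, f1, f2, fun N hN => ?_⟩
    rw [hav N hN]
    exact f3 N hN
  choose! φ₀ φ₁ hφ0 hφ1 hφ2 using hφ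
  -- decay
  have hdec : ∀ j : ℕ, |g (j + 1)| * (((q * (j + 1) : ℕ) : ℝ)) ^ 8 ≤
      2 * 20 ^ 10 * (q : ℝ) ^ 8 * (1 / κ) ^ 10 * (1 / ((j : ℝ) + 1) ^ 2) := by
    intro j
    have h5 := hg (j + 1) (by omega)
    have hj : (0 : ℝ) < (j : ℝ) + 1 := by positivity
    have h6 : ((j + 1 : ℕ) : ℝ) = (j : ℝ) + 1 := by push_cast; ring
    rw [h6] at h5
    calc |g (j + 1)| * (((q * (j + 1) : ℕ) : ℝ)) ^ 8
        ≤ 2 * (2 * ((10 : ℕ) : ℝ) / (κ * ((j : ℝ) + 1))) ^ 10 * (((q * (j + 1) : ℕ) : ℝ)) ^ 8 :=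
          mul_le_mul_of_nonneg_right h5 (by positivity)
      _ = 2 * 20 ^ 10 * (q : ℝ) ^ 8 * (1 / κ) ^ 10 * (1 / ((j : ℝ) + 1) ^ 2) := by
          push_cast
          field_simp
          ring
  have hgs1 : Summable (fun j : ℕ => |g (j + 1)|) := by
    refine Summable.of_nonneg_of_le (fun j => abs_nonneg _) (fun j => ?_)
      (hz1.mul_left (2 * 20 ^ 10 * (q : ℝ) ^ 8 * (1 / κ) ^ 10))
    refine le_trans ?_ (hdec j)
    refine le_mul_of_one_le_right (abs_nonneg _) (one_le_pow₀ ?_)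
    exact_mod_cast Nat.one_le_iff_ne_zero.2 (by positivity)
  have hgs : Summable (fun j : ℕ => |g j|) := (summable_nat_add_iff 1).1 hgs1
  have hcs : ∀ φ : ℕ → ℝ, (∀ j, 1 ≤ j → |φ j| ≤ C₀ * ((q * j : ℕ) : ℝ) ^ 8) →
      Summable (fun j : ℕ => g (j + 1) * φ (j + 1)) := by
    intro φ hφ
    refine Summable.of_norm_bounded
      (g := fun j : ℕ => C₀ * (2 * 20 ^ 10 * (q : ℝ) ^ 8 * (1 / κ) ^ 10 * (1 / ((j : ℝ) + 1) ^ 2)))
      ((hz1.mul_left (2 * 20 ^ 10 * (q : ℝ) ^ 8 * (1 / κ) ^ 10)).mul_left C₀) fun j => ?_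
    rw [norm_mul, Real.norm_eq_abs, Real.norm_eq_abs]
    calc |g (j + 1)| * |φ (j + 1)| ≤ |g (j + 1)| * (C₀ * ((q * (j + 1) : ℕ) : ℝ) ^ 8) :=
          mul_le_mul_of_nonneg_left (hφ (j + 1) (by omega)) (abs_nonneg _)
      _ = C₀ * (|g (j + 1)| * ((q * (j + 1) : ℕ) : ℝ) ^ 8) := by ring
      _ ≤ _ := mul_le_mul_of_nonneg_left (hdec j) (by linarith)
  refine ⟨g 0 + ∑' j : ℕ, g (j + 1) * φ₀ (j + 1), -g 0 + ∑' j : ℕ, g (j + 1) * φ₁ (j + 1), ?_⟩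
  intro N hN
  have hN' : (1 : ℝ) ≤ N := by exact_mod_cast hN
  have hN0 : (0 : ℝ) < N := by linarith
  have hb : ∀ (j : ℕ) (σ : Fin 2 → Equiv.Perm (Fin N)),
      |np (Φ N) K P (Polynomial.Chebyshev.T ℝ (j : ℤ)) σ| ≤ 1 := by
    intro j σ
    rw [abs_le]
    refine (h3 D N (Φ N) P K σ (hΦ N hN) hD hN hK hP hU).1
      (Polynomial.Chebyshev.T ℝ (j : ℤ)) (-1) 1 (by norm_num) zero_le_one ?_
    intro t ht
    have h5 : (Polynomial.Chebyshev.T ℝ (j : ℤ)).eval t = Real.cos (j * Real.arccos t) := by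
      conv_lhs => rw [← Real.cos_arccos (abs_le.1 ht).1 (abs_le.1 ht).2]
      rw [Polynomial.Chebyshev.T_real_cos]
      norm_num
    rw [h5]
    exact abs_le.1 (Real.abs_cos_le_one _)
  have hsx : ∀ σ : Fin 2 → Equiv.Perm (Fin N), Summable (fun j : ℕ =>
      g j * np (Φ N) K P (Polynomial.Chebyshev.T ℝ (j : ℤ)) σ) := by
    intro σ
    refine Summable.of_norm_bounded hgs fun j => ?_
    rw [norm_mul, Real.norm_eq_abs, Real.norm_eq_abs]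
    exact mul_le_of_le_one_right (abs_nonneg _) (hb j σ)
  set I : ℕ → ℝ := fun j => av (np (Φ N) K P (Polynomial.Chebyshev.T ℝ (j : ℤ))) with hI
  have e1 : av (yp (Φ N) K P g) = ∑' j, g j * I j := by
    have h5 : ∑ σ : Fin 2 → Equiv.Perm (Fin N), yp (Φ N) K P g σ =
        ∑' j, ∑ σ : Fin 2 → Equiv.Perm (Fin N),
          g j * np (Φ N) K P (Polynomial.Chebyshev.T ℝ (j : ℤ)) σ := by
      unfold yp
      rw [Summable.tsum_finsetSum fun σ _ => hsx σ]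
    unfold av at hI ⊢
    rw [h5, ← tsum_div_const]
    refine tsum_congr fun j => ?_
    rw [hI, ← Finset.mul_sum, mul_div_assoc]
  have hI0 : I 0 = 1 - 1 / (N : ℝ) := by
    have h5 : I 0 = av (fun _ : Fin 2 → Equiv.Perm (Fin N) => 1 - 1 / (N : ℝ)) := by
      rw [hI]
      simp only
      congr 1
      funext σ
      rw [Nat.cast_zero, Polynomial.Chebyshev.T_zero]
      exact (h3 D N (Φ N) P K σ (hΦ N hN) hD hN hK hP hU).2.1
    rw [h5, TGX_av_const]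
  have e3 : Summable (fun j => g j * I j) := by
    refine Summable.of_norm_bounded hgs fun j => ?_
    rw [norm_mul, Real.norm_eq_abs, Real.norm_eq_abs]
    exact mul_le_of_le_one_right (abs_nonneg _) (TGX_av_abs _ 1 (hb j))
  have e4 : Summable (fun j => g (j + 1) * I (j + 1)) := (summable_nat_add_iff 1).2 e3
  have c0 := hcs φ₀ hφ0
  have c1 := hcs φ₁ hφ1
  rw [e1, e3.tsum_eq_zero_add, hI0]
  have e5 : g 0 * (1 - 1 / (N : ℝ)) + ∑' j, g (j + 1) * I (j + 1) -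
      (g 0 + ∑' j : ℕ, g (j + 1) * φ₀ (j + 1)) -
      (-g 0 + ∑' j : ℕ, g (j + 1) * φ₁ (j + 1)) / N =
      ∑' j, (g (j + 1) * I (j + 1) - g (j + 1) * φ₀ (j + 1) - g (j + 1) * φ₁ (j + 1) / N) := by
    rw [(e4.sub c0).tsum_sub (c1.div_const _), e4.tsum_sub c0, tsum_div_const]
    ring
  rw [e5]
  have e7 : ∀ j : ℕ, ‖g (j + 1) * I (j + 1) - g (j + 1) * φ₀ (j + 1) -
      g (j + 1) * φ₁ (j + 1) / N‖ ≤
        C₀ * (2 * 20 ^ 10 * (q : ℝ) ^ 8 * (1 / κ) ^ 10) / (N : ℝ) ^ 2 *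
          (1 / ((j : ℝ) + 1) ^ 2) := by
    intro j
    have h5 : g (j + 1) * I (j + 1) - g (j + 1) * φ₀ (j + 1) - g (j + 1) * φ₁ (j + 1) / N =
        g (j + 1) * (I (j + 1) - φ₀ (j + 1) - φ₁ (j + 1) / N) := by ring
    rw [h5, norm_mul, Real.norm_eq_abs, Real.norm_eq_abs]
    calc |g (j + 1)| * |I (j + 1) - φ₀ (j + 1) - φ₁ (j + 1) / N|
        ≤ |g (j + 1)| * (C₀ * ((q * (j + 1) : ℕ) : ℝ) ^ 8 / (N : ℝ) ^ 2) :=
          mul_le_mul_of_nonneg_left (hφ2 (j + 1) (by omega) N hN) (abs_nonneg _)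
      _ = C₀ / (N : ℝ) ^ 2 * (|g (j + 1)| * ((q * (j + 1) : ℕ) : ℝ) ^ 8) := by ring
      _ ≤ C₀ / (N : ℝ) ^ 2 * (2 * 20 ^ 10 * (q : ℝ) ^ 8 * (1 / κ) ^ 10 *
          (1 / ((j : ℝ) + 1) ^ 2)) := mul_le_mul_of_nonneg_left (hdec j) (by positivity)
      _ = _ := by ring
  have e8 := tsum_of_norm_bounded (hz1.mul_left
    (C₀ * (2 * 20 ^ 10 * (q : ℝ) ^ 8 * (1 / κ) ^ 10) / (N : ℝ) ^ 2)).hasSum e7
  rw [Real.norm_eq_abs, tsum_mul_left] at e8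
  refine e8.trans ?_
  have e9 : (0 : ℝ) ≤ C₀ * (2 * 20 ^ 10 * (q : ℝ) ^ 8 * (1 / κ) ^ 10) / (N : ℝ) ^ 2 := by
    positivity
  calc C₀ * (2 * 20 ^ 10 * (q : ℝ) ^ 8 * (1 / κ) ^ 10) / (N : ℝ) ^ 2 *
        ∑' j : ℕ, 1 / ((j : ℝ) + 1) ^ 2
      ≤ C₀ * (2 * 20 ^ 10 * (q : ℝ) ^ 8 * (1 / κ) ^ 10) / (N : ℝ) ^ 2 * 2 :=
        mul_le_mul_of_nonneg_left hz2 e9
    _ = 4 * 20 ^ 10 * C₀ * (q : ℝ) ^ 8 * (1 / κ) ^ 10 / (N : ℝ) ^ 2 := by ring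

end Pool.Agent.QX
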