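import Pool.Agent.helper54.QX.TSF
import Pool.Agent.helper55.QX.TS1
import Pool.Agent.helper17.QX.SDR
import Pool.Agent.helper31.QX.TRB
import Pool.Agent.helper40.QX.TNP
import Pool.Agent.helper75.QX.MXO
import Pool.Agent.helper50.QX.TVN
import Pool.Agent.helper9.QX.GMA
import Pool.Agent.helper5.QX.SPV
import Pool.Agent.helper5.QX.BLC
import Pool.Agent.helper27.QX.SQC
import Pool.Agent.helper27.QX.BTR
import Pool.Agent.helper27.QX.TEX
import Pool.Agent.helper13.QX.PRT
import Pool.Agent.helper99.QX.ZRP
import Pool.Agent.helper45.QX.SEP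
import Pool.Agent.helper4.QX.SVM
import Pool.Agent.helper62.QX.TAS
import Pool.Agent.helper62.QX.TGX
import Pool.Agent.helper62.QX.EXO
import Pool.Agent.helper62.QX.LMQ
import Pool.Agent.helper62.QX.FCV

set_option autoImplicit false

/-!
# MP_07c750, project QX: assembly of part T (random permutations, matrices of polynomial size and degree)
and of the theorem T1 on covers from `DET`
-/

namespace Pool.Agent.QX

theorem T_TSF : TSF_stmt := TSF TS1
theorem T_GMA : GMA_stmt := GMA
theorem T_SPV : SPV_stmt := SPV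
theorem T_BLC : BLC_stmt := BLC
theorem T_SQC : SQC_stmt := SQC
theorem T_EXO : EXO_stmt := EXO T_GMA T_SPV T_SQC
theorem T_TRB : TRB_stmt := TRB T_GMA T_SPV
theorem T_TNP : TNP_stmt := TNP T_GMA T_SPV T_TRB
theorem T_BTR : BTR_stmt := BTR T_GMA
theorem T_MXO : MXO_stmt := MXO T_GMA T_BLC T_SQC T_EXO
theorem T_TGX : TGX_stmt := TGX TEX T_BTR T_TNP

/-- strong convergence of random permutations for matrices of size and degree a power of `N` -/
theorem T_SCP : SCP_stmt := TAS T_TSF SDR T_TRB T_TNP T_MXO T_TGX TVN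

/-- T1 from the deterministic part -/
theorem T_FCV (h : DET_stmt) : FCV_stmt := FCV (PRT T_SCP LMQ h SVM ZRP) SEP

end Pool.Agent.QX
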