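import Pool.Agent.helper4.QX.Defs
import Pool.Agent.helper62.RP.All

/-!
# Project QX: matrices over group algebras, regular norms
-/

set_option autoImplicit false

open Pool.Agent.QU Pool.Agent.RP

namespace Pool.Agent.QX

variable {G H : Type} [Group G] [Group H] {D : ℕ}

/-! ### Adjoint and inner product -/

theorem MAT_adj_sum {ι : Type} (s : Finset ι) (f : ι → MonoidAlgebra ℂ G) :
    adj (∑ i ∈ s, f i) = ∑ i ∈ s, adj (f i) := by
  classical
  induction s using Finset.induction_on with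
  | empty => rw [Finset.sum_empty, Finset.sum_empty, ADJ_zero]
  | insert a s ha ih => rw [Finset.sum_insert ha, Finset.sum_insert ha, ADJ_add, ih]

theorem MAT_SA_sq {P : Mat D G} (h : SA P) : SA (P * P) := by
  intro i j
  rw [Matrix.mul_apply, Matrix.mul_apply, MAT_adj_sum]
  refine Finset.sum_congr rfl fun k _ => ?_
  rw [ADJ_mul, h, h]

omit [Group G] in
theorem MAT_l2nn (u : MonoidAlgebra ℂ G) : 0 ≤ l2 u := Real.sqrt_nonneg _

theorem MAT_mono {P : Mat D G} {r s : ℝ} (h : RegB P r) (h0 : 0 ≤ r) (hrs : r ≤ s) :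
    RegB P s := by
  intro u
  refine (h u).trans ?_
  refine mul_le_mul_of_nonneg_right (pow_le_pow_left₀ h0 hrs 2) ?_
  exact Finset.sum_nonneg fun i _ => sq_nonneg _

theorem MAT_mulapp (P Q : Mat D G) (u : Fin D → MonoidAlgebra ℂ G) (i : Fin D) :
    ∑ j, (P * Q) i j * u j = ∑ k, P i k * ∑ j, Q k j * u j := by
  have h1 : ∀ j, (P * Q) i j * u j = ∑ k, P i k * (Q k j * u j) := by
    intro j
    rw [Matrix.mul_apply, Finset.sum_mul]
    exact Finset.sum_congr rfl fun k _ => mul_assoc _ _ _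
  rw [Finset.sum_congr rfl fun j _ => h1 j, Finset.sum_comm]
  exact Finset.sum_congr rfl fun k _ => (Finset.mul_sum _ _ _).symm

theorem MAT_sq {P : Mat D G} {r : ℝ} (h : RegB P r) : RegB (P * P) (r ^ 2) := by
  intro u
  have h1 := h (fun k => ∑ j, P k j * u j)
  have h2 := h u
  calc ∑ i, l2 (∑ j, (P * P) i j * u j) ^ 2 = ∑ i, l2 (∑ k, P i k * ∑ j, P k j * u j) ^ 2 := by
        refine Finset.sum_congr rfl fun i _ => ?_
        rw [MAT_mulapp]
    _ ≤ r ^ 2 * ∑ i, l2 (∑ j, P i j * u j) ^ 2 := h1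
    _ ≤ r ^ 2 * (r ^ 2 * ∑ i, l2 (u i) ^ 2) := mul_le_mul_of_nonneg_left h2 (sq_nonneg r)
    _ = (r ^ 2) ^ 2 * ∑ i, l2 (u i) ^ 2 := by ring

/-- the quadratic identity -/
theorem MAT_quad {Q : Mat D G} (hQ : SA Q) (u : Fin D → MonoidAlgebra ℂ G) :
    ((∑ i, l2 (∑ j, Q i j * u j) ^ 2 : ℝ) : ℂ) =
      ∑ j, (adj (u j) * ∑ k, (Q * Q) j k * u k).coeff 1 := by
  have h1 : ∀ i, ((l2 (∑ j, Q i j * u j) ^ 2 : ℝ) : ℂ) =
      ∑ j, (adj (u j) * (Q j i * ∑ k, Q i k * u k)).coeff 1 := by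
    intro i
    rw [← ADJ_self, MAT_adj_sum, Finset.sum_mul, MonoidAlgebra.coeff_sum, Finsupp.finsetSum_apply]
    refine Finset.sum_congr rfl fun j _ => ?_
    rw [ADJ_mul, hQ, mul_assoc]
  rw [Complex.ofReal_sum, Finset.sum_congr rfl fun i _ => h1 i, Finset.sum_comm]
  refine Finset.sum_congr rfl fun j _ => ?_
  rw [MAT_mulapp, Finset.mul_sum, MonoidAlgebra.coeff_sum, Finsupp.finsetSum_apply]

theorem MAT_root {Q : Mat D G} (hQ : SA Q) {t : ℝ} (h : RegB (Q * Q) (t ^ 2)) :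
    RegB Q t := by
  intro u
  have h1 := MAT_quad hQ u
  set A : ℝ := ∑ i, l2 (∑ j, Q i j * u j) ^ 2 with hA
  set B : ℝ := ∑ i, l2 (u i) ^ 2 with hB
  have hB0 : 0 ≤ B := Finset.sum_nonneg fun i _ => sq_nonneg _
  have hA0 : 0 ≤ A := Finset.sum_nonneg fun i _ => sq_nonneg _
  have h2 : A ≤ ∑ j, l2 (u j) * l2 (∑ k, (Q * Q) j k * u k) := by
    have h3 : ‖((A : ℝ) : ℂ)‖ = A := by
      rw [Complex.norm_real, Real.norm_of_nonneg hA0]
    rw [← h3, h1]
    refine (norm_sum_le _ _).trans ?_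
    exact Finset.sum_le_sum fun j _ => ADJ_cs _ _
  have h3 : (∑ j, l2 (u j) * l2 (∑ k, (Q * Q) j k * u k)) ^ 2 ≤
      B * ∑ j, l2 (∑ k, (Q * Q) j k * u k) ^ 2 := Finset.sum_mul_sq_le_sq_mul_sq _ _ _
  have h4 := h u
  have h5 : A ^ 2 ≤ (t ^ 2 * B) ^ 2 := by
    calc A ^ 2 ≤ (∑ j, l2 (u j) * l2 (∑ k, (Q * Q) j k * u k)) ^ 2 :=
          pow_le_pow_left₀ hA0 h2 2
      _ ≤ B * ∑ j, l2 (∑ k, (Q * Q) j k * u k) ^ 2 := h3
      _ ≤ B * ((t ^ 2) ^ 2 * B) := mul_le_mul_of_nonneg_left h4 hB0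
      _ = (t ^ 2 * B) ^ 2 := by ring
  exact (sq_le_sq₀ hA0 (mul_nonneg (sq_nonneg t) hB0)).1 h5

/-- iterated squares -/
noncomputable def sqi {R : Type} [Mul R] (P : R) : ℕ → R
  | 0 => P
  | n + 1 => sqi P n * sqi P n

theorem MAT_sqi_SA {P : Mat D G} (h : SA P) (n : ℕ) : SA (sqi P n) := by
  induction n with
  | zero => exact h
  | succ n ih => exact MAT_SA_sq ih

theorem MAT_sqi_up {P : Mat D G} {r : ℝ} (h : RegB P r) (n : ℕ) : RegB (sqi P n) (r ^ 2 ^ n) := by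
  induction n with
  | zero => rw [pow_zero, pow_one]; exact h
  | succ n ih =>
    have h1 := MAT_sq ih
    rw [← pow_mul, ← pow_succ] at h1
    exact h1

theorem MAT_sqi_down {Q : Mat D G} (hQ : SA Q) {t : ℝ} (n : ℕ)
    (h : RegB (sqi Q n) (t ^ 2 ^ n)) : RegB Q t := by
  induction n with
  | zero => rw [pow_zero, pow_one] at h; exact h
  | succ n ih =>
    refine ih (MAT_root (MAT_sqi_SA hQ n) ?_)
    rw [← pow_mul, ← pow_succ]
    exact h

/-- norms of the entries -/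
theorem MAT_entries {Q : Mat D G} {t : ℝ} (h : ∀ i j, regNorm (Q i j) ≤ t) :
    RegB Q ((D : ℝ) * t) := by
  intro u
  have h1 : ∀ i, l2 (∑ j, Q i j * u j) ^ 2 ≤ (D : ℝ) * t ^ 2 * ∑ j, l2 (u j) ^ 2 := by
    intro i
    have h2 : l2 (∑ j, Q i j * u j) ≤ ∑ j, t * l2 (u j) := by
      refine (RNB_sum _ _).trans ?_
      refine Finset.sum_le_sum fun j _ => ?_
      exact (RNB_mul_le _ _).trans (mul_le_mul_of_nonneg_right (h i j) (MAT_l2nn _))
    calc l2 (∑ j, Q i j * u j) ^ 2 ≤ (∑ j, t * l2 (u j)) ^ 2 :=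
          pow_le_pow_left₀ (MAT_l2nn _) h2 2
      _ ≤ (∑ _j : Fin D, t ^ 2) * ∑ j, l2 (u j) ^ 2 := Finset.sum_mul_sq_le_sq_mul_sq _ _ _
      _ = (D : ℝ) * t ^ 2 * ∑ j, l2 (u j) ^ 2 := by
          rw [Finset.sum_const, Finset.card_univ, Fintype.card_fin, nsmul_eq_mul]
  calc ∑ i, l2 (∑ j, Q i j * u j) ^ 2 ≤ ∑ _i : Fin D, (D : ℝ) * t ^ 2 * ∑ j, l2 (u j) ^ 2 :=
        Finset.sum_le_sum fun i _ => h1 i
    _ = ((D : ℝ) * t) ^ 2 * ∑ j, l2 (u j) ^ 2 := by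
        rw [Finset.sum_const, Finset.card_univ, Fintype.card_fin, nsmul_eq_mul]
        ring

theorem MAT_l2entry {P : Mat D G} {r : ℝ} (h0 : 0 ≤ r) (h : RegB P r) (i j : Fin D) :
    l2 (P i j) ≤ r := by
  have h1 := h (Pi.single j 1)
  have h2 : ∑ k, l2 ((Pi.single j 1 : Fin D → MonoidAlgebra ℂ G) k) ^ 2 = 1 := by
    rw [Finset.sum_eq_single j]
    · rw [Pi.single_eq_same, RNB_one, one_pow]
    · intro k _ hk
      rw [Pi.single_eq_of_ne hk, RNB_zero]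
      norm_num
    · intro hj
      exact absurd (Finset.mem_univ j) hj
  have h3 : ∀ k, ∑ l, P k l * (Pi.single j 1 : Fin D → MonoidAlgebra ℂ G) l = P k j := by
    intro k
    rw [Finset.sum_eq_single j]
    · rw [Pi.single_eq_same, mul_one]
    · intro l _ hl
      rw [Pi.single_eq_of_ne hl, mul_zero]
    · intro hj
      exact absurd (Finset.mem_univ j) hj
  rw [h2, mul_one] at h1
  have h4 : l2 (P i j) ^ 2 ≤ ∑ k, l2 (∑ l, P k l * (Pi.single j 1 : Fin D → MonoidAlgebra ℂ G) l) ^ 2 := by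
    have h5 := Finset.single_le_sum (f := fun k => l2 (∑ l, P k l *
      (Pi.single j 1 : Fin D → MonoidAlgebra ℂ G) l) ^ 2) (fun k _ => sq_nonneg _)
      (Finset.mem_univ i)
    simp only [h3] at h5 ⊢
    exact h5
  exact (sq_le_sq₀ (MAT_l2nn _) h0).1 (h4.trans h1)

/-! ### Images under homomorphisms -/

theorem MAT_push_mul (f : G →* H) (P Q : Mat D G) :
    pushM f (P * Q) = pushM f P * pushM f Q := by
  ext1 i j
  rw [Matrix.mul_apply]
  change push f ((P * Q) i j) = ∑ k, push f (P i k) * push f (Q k j)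
  rw [Matrix.mul_apply, PUS_eq, map_sum]
  refine Finset.sum_congr rfl fun k _ => ?_
  rw [map_mul, ← PUS_eq, ← PUS_eq]

theorem MAT_push_sqi (f : G →* H) (P : Mat D G) (n : ℕ) :
    pushM f (sqi P n) = sqi (pushM f P) n := by
  induction n with
  | zero => rfl
  | succ n ih =>
    change pushM f (sqi P n * sqi P n) = sqi (pushM f P) n * sqi (pushM f P) n
    rw [MAT_push_mul, ih]

theorem MAT_push_SA (f : G →* H) {P : Mat D G} (h : SA P) : SA (pushM f P) := by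
  intro i j
  change adj (push f (P i j)) = push f (P j i)
  have h1 := (A_PUS G H f (P i j) (P i j)).2.2.2.1
  rw [← h1, h]

/-- the main step: `f` is injective on the supports of the entries of the iterated square -/
theorem MAT_main (f : G →* F2) {P : Mat D G} (hP : SA P) (j ℓ : ℕ) {r r' : ℝ} (hr : 0 ≤ r)
    (h : RegB P r) (S : Set G) (hS : Sup (sqi P j) S) (hinj : Set.InjOn f S)
    (hlen : ∀ γ ∈ S, (f γ).norm ≤ ℓ)
    (hrr : (D : ℝ) * ((ℓ : ℝ) + 1) ^ 2 * r ^ (2 ^ j) ≤ r' ^ (2 ^ j)) : RegB (pushM f P) r' := by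
  have h1 := MAT_sqi_up h j
  refine MAT_sqi_down (MAT_push_SA f hP) j ?_
  rw [← MAT_push_sqi]
  have h2 : ∀ a b, regNorm (pushM f (sqi P j) a b) ≤ ((ℓ : ℝ) + 1) ^ 2 * r ^ (2 ^ j) := by
    intro a b
    have h3 : l2 (push f (sqi P j a b)) = l2 (sqi P j a b) :=
      (A_PUS G F2 f (sqi P j a b) (sqi P j a b)).2.2.2.2.2.1 (hinj.mono fun γ hγ => hS a b γ hγ)
    have h4 : regNorm (push f (sqi P j a b)) ≤ ((ℓ : ℝ) + 1) ^ 2 * l2 (push f (sqi P j a b)) := by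
      refine A_HAA _ ℓ fun s hs => ?_
      obtain ⟨γ, hγ, rfl⟩ := PUS_supp f _ s hs
      exact hlen γ (hS a b γ hγ)
    refine h4.trans (mul_le_mul_of_nonneg_left ?_ (by positivity))
    rw [h3]
    exact MAT_l2entry (pow_nonneg hr _) h1 a b
  have h5 := MAT_entries h2
  refine MAT_mono h5 (by positivity) ?_
  rw [← mul_assoc]
  exact hrr

end Pool.Agent.QX
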