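import Pool.Agent.helper4.QX.SpecM
import Pool.Agent.helper62.RP.All
import Pool.Agent.helper62.QX.MAT

set_option autoImplicit false

/-!
# Project QX (MP_07c750), part T: random permutations with matrix coefficients of polynomial size. Rows `qt:X`

Prove `X_stmt` in `Pool/Agent/<seat>/QX/X.lean`, namespace `Pool.Agent.QX`, auxiliary lemmas prefixed `X_`.
The theorem has the rows listed after the word from as hypotheses, in this order. All finished rows of helper62's project RP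
may be used directly (`A_RNB`, `A_ADJ`, `A_PUS`, `A_TST`, `A_TRM`, ... of `Pool.Agent.helper62.RP.All`), also
`MAT_..` of `Pool/Agent/helper62/QX/MAT.lean` (matrices over group algebras).

Plan. `σ` = pair of uniform permutations of `N` points, `ρ_σ` the representation of `F2` on the vectors of sum zero (dimension
`N - 1`, matrices `Φ`). The normalised trace of `h(P(ρ_σ)/K)` is `tau N b σ / N` for the SCALAR element `b = (1/D) Tr_D h(P/K)`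
(BTR), so by POL and DIS of RP its mean is `φ₀ + φ₁/N + O((q deg)^8/N²)` (TEX), hence the mean of the normalised trace of a smooth
function is `ν₀ + ν₁/N + O(q^8 κ^{-10}/N²)` (TGX). For fixed `P` the expected number of eigenvalues larger than `r + δ` tends to zero
(EXO for scalars, MXO for matrices: power trick), so `ν₀ = ν₁ = 0` (TVN), and the error term is the bound for the
probability of a large norm (SCP).
-/

open scoped Topology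
open Filter Set Polynomial
open Pool.Agent.QU Pool.Agent.RP

namespace Pool.Agent.QX

/-! ### Definitions -/

/-- the matrix of an element of the group algebra -/
noncomputable def R1 {M : ℕ} (ρ : F2 →* Matrix.unitaryGroup (Fin M) ℂ) (a : MonoidAlgebra ℂ F2) :
    Matrix (Fin M) (Fin M) ℂ :=
  fun i j => ∑ w ∈ a.coeff.support, a.coeff w * (ρ w : Matrix (Fin M) (Fin M) ℂ) i j

/-- the matrix of `P` -/
noncomputable def GM {D M : ℕ} (ρ : F2 →* Matrix.unitaryGroup (Fin M) ℂ) (P : Mat D F2) :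
    Matrix (Fin D × Fin M) (Fin D × Fin M) ℂ := fun s t => R1 ρ (P s.1 t.1) s.2 t.2

/-- the norm of the matrix of `P` -/
noncomputable def gn {D M : ℕ} (ρ : F2 →* Matrix.unitaryGroup (Fin M) ℂ) (P : Mat D F2) : ℝ :=
  ‖Matrix.toEuclideanCLM (n := Fin D × Fin M) (𝕜 := ℂ) (GM ρ P)‖

/-- `‖A v‖ ≤ t ‖v‖` on a subspace of codimension at most `k` -/
def Cod {n : Type} [Fintype n] [DecidableEq n] (A : Matrix n n ℂ) (t : ℝ) (k : ℕ) : Prop :=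
  ∃ S : Submodule ℂ (EuclideanSpace ℂ n), Fintype.card n ≤ Module.finrank ℂ S + k ∧
    ∀ v ∈ S, ‖Matrix.toEuclideanCLM (n := n) (𝕜 := ℂ) A v‖ ≤ t * ‖v‖

/-- `Φ` is the representation of the symmetric group on the vectors of sum zero, in an orthonormal basis -/
structure StdR {N : ℕ} (Φ : Equiv.Perm (Fin N) →* Matrix.unitaryGroup (Fin (N - 1)) ℂ) : Prop where
  tr : ∀ π, Matrix.trace (Φ π : Matrix (Fin (N - 1)) (Fin (N - 1)) ℂ) = (fx π : ℂ) - 1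
  ex : ∃ ι : EuclideanSpace ℂ (Fin (N - 1)) →ₗᵢ[ℂ] EuclideanSpace ℂ (Fin N),
    (∀ v, ∑ i, v i = 0 → ∃ u, ι u = v) ∧ (∀ u, ∑ i, ι u i = 0) ∧
      ∀ π u i, ι (isoU (N - 1) (Φ π) u) i = ι u (π⁻¹ i)

/-- the representation of `F2` given by a pair of permutations -/
noncomputable def rs {N : ℕ} (Φ : Equiv.Perm (Fin N) →* Matrix.unitaryGroup (Fin (N - 1)) ℂ)
    (σ : Fin 2 → Equiv.Perm (Fin N)) : F2 →* Matrix.unitaryGroup (Fin (N - 1)) ℂ :=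
  Φ.comp (FreeGroup.lift σ)

/-- mean over all pairs of permutations -/
noncomputable def av {N : ℕ} (X : (Fin 2 → Equiv.Perm (Fin N)) → ℝ) : ℝ :=
  (∑ σ, X σ) / (N.factorial : ℝ) ^ 2

/-- normalised trace of `h(P/K)`, divided by `D N` -/
noncomputable def np {D N : ℕ} (Φ : Equiv.Perm (Fin N) →* Matrix.unitaryGroup (Fin (N - 1)) ℂ) (K : ℝ)
    (P : Mat D F2) (h : ℝ[X]) (σ : Fin 2 → Equiv.Perm (Fin N)) : ℝ :=
  (Matrix.trace (GM (rs Φ σ) (aeval (K⁻¹ • P) h))).re / (D * N)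

/-- the scalar element `b = (1/D) Tr_D h(P/K)` -/
noncomputable def bT {D : ℕ} (K : ℝ) (P : Mat D F2) (h : ℝ[X]) : MonoidAlgebra ℂ F2 :=
  ((D : ℂ)⁻¹) • ∑ i, (aeval (K⁻¹ • P) h : Mat D F2) i i

/-- `∑_j g_j np(T_j)` -/
noncomputable def yp {D N : ℕ} (Φ : Equiv.Perm (Fin N) →* Matrix.unitaryGroup (Fin (N - 1)) ℂ) (K : ℝ)
    (P : Mat D F2) (g : ℕ → ℝ) (σ : Fin 2 → Equiv.Perm (Fin N)) : ℝ :=
  ∑' j : ℕ, g j * np Φ K P (Polynomial.Chebyshev.T ℝ (j : ℤ)) σ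

/-- the norm of `P` on the vectors of sum zero is at most `r` -/
def RepZ {D N : ℕ} (σ : F2 →* Equiv.Perm (Fin N)) (P : Mat D F2) (r : ℝ) : Prop :=
  ∀ v : Fin D → EuclideanSpace ℂ (Fin N), (∀ i, ∑ k, v i k = 0) →
    ∑ i, ‖∑ j, rep (permRep σ) (P i j) (v j)‖ ^ 2 ≤ r ^ 2 * ∑ i, ‖v i‖ ^ 2

open Classical in
/-- the pairs of permutations for which the norm is larger than `r` -/
noncomputable def badM {D : ℕ} (N : ℕ) (P : Mat D F2) (r : ℝ) : Finset (Fin 2 → Equiv.Perm (Fin N)) :=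
  Finset.univ.filter (fun σ => ¬ RepZ (FreeGroup.lift σ) P r)

/-! ### Linear algebra -/

/-- **Row SDR** (medium). `Z = {v | ∑ v i = 0}`, a subspace of `EuclideanSpace ℂ (Fin N)` of dimension `N - 1`
(kernel of a nonzero functional), `β = stdOrthonormalBasis ℂ Z` reindexed by `Fin (N - 1)`, `ι u = ∑ u_k β_k`. The permutation
operator `U_π` maps `Z` to `Z`, `Φ π` = its matrix in the basis `β`: `(Φ π) k l = ⟪β k, U_π β l⟫` (unitary since `U_π` is an isometry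
of `Z`; multiplicative). Trace: `tr U_π = fx π` (permutation matrix), and `ℂ^N = Z ⊕ ℂ 1` orthogonally, `U_π 1 = 1`: with the
orthonormal basis `β ∪ {1/√N}` the trace of `U_π` is `tr Φ π + 1`. -/
def SDR_stmt : Prop := ∀ N : ℕ, 1 ≤ N →
  ∃ Φ : Equiv.Perm (Fin N) →* Matrix.unitaryGroup (Fin (N - 1)) ℂ, StdR Φ

/-- **Row GMA** (medium). `R1 ρ` is the `*`-homomorphism of `ℂ[F2]` given by `ρ` (additive; check on `single`), `GM ρ P` is the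
block matrix. (As row MRA of SpecM, whose `RM c x P` is `GM (UG c x) P`.) -/
def GMA_stmt : Prop := ∀ (D M : ℕ) (ρ : F2 →* Matrix.unitaryGroup (Fin M) ℂ),
  (∀ a b : MonoidAlgebra ℂ F2, R1 ρ (a * b) = R1 ρ a * R1 ρ b ∧ R1 ρ (a + b) = R1 ρ a + R1 ρ b) ∧
  (∀ a : MonoidAlgebra ℂ F2, R1 ρ (adj a) = (R1 ρ a).conjTranspose) ∧
  (∀ a : MonoidAlgebra ℂ F2, Matrix.trace (R1 ρ a) =
    ∑ w ∈ a.coeff.support, a.coeff w * Matrix.trace (ρ w : Matrix (Fin M) (Fin M) ℂ)) ∧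
  (∀ (a : MonoidAlgebra ℂ F2) (h : ℝ[X]), R1 ρ (pev h a) = aeval (R1 ρ a) h) ∧
  (∀ P Q : Mat D F2, GM ρ (P * Q) = GM ρ P * GM ρ Q ∧ GM ρ (P + Q) = GM ρ P + GM ρ Q) ∧
  (∀ (t : ℝ) (P : Mat D F2), GM ρ (t • P) = t • GM ρ P) ∧ GM ρ (1 : Mat D F2) = 1 ∧
  (∀ (P : Mat D F2) (n : ℕ), GM ρ (P ^ n) = GM ρ P ^ n) ∧
  (∀ (P : Mat D F2) (h : ℝ[X]), GM ρ (aeval P h) = aeval (GM ρ P) h) ∧
  (∀ P : Mat D F2, SA P → (GM ρ P).IsHermitian) ∧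
  ∀ P : Mat D F2, Matrix.trace (GM ρ P) = Matrix.trace (R1 ρ (∑ i, P i i))

/-- **Row SPV** (medium; spectral theorem). `ev = hA.eigenvalues`, `e = hA.eigenvectorBasis`: `‖A^p v‖² = ∑ ev_i^{2p} |⟪e_i, v⟫|²`.
(1) the number of `i` with `t < |ev i|` is a codimension for `Cod` (`S = span {e_i : |ev i| ≤ t}`). (2) if `Cod (A^p) (t^p) k` holds with
the subspace `S` and more than `k` of the `|ev i|` are `> t`, their span `W` meets `S` in a vector `v ≠ 0` (dimensions), and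
`‖A^p v‖ > t^p ‖v‖`, a contradiction. -/
def SPV_stmt : Prop := ∀ (n : Type) [Fintype n] [DecidableEq n] (A : Matrix n n ℂ), A.IsHermitian →
  ∃ ev : n → ℝ, (∀ i, |ev i| ≤ ‖Matrix.toEuclideanCLM (n := n) (𝕜 := ℂ) A‖) ∧
    (∀ h : ℝ[X], Matrix.trace (aeval A h) = ((∑ i, h.eval (ev i) : ℝ) : ℂ)) ∧
    (∀ m : ℝ, 0 ≤ m → (∀ i, |ev i| ≤ m) → ‖Matrix.toEuclideanCLM (n := n) (𝕜 := ℂ) A‖ ≤ m) ∧
    (∀ t : ℝ, 0 ≤ t → Cod A t (Finset.univ.filter (fun i => t < |ev i|)).card) ∧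
    ∀ (t : ℝ) (p k : ℕ), 0 ≤ t → 1 ≤ p → Cod (A ^ p) (t ^ p) k →
      (Finset.univ.filter (fun i => t < |ev i|)).card ≤ k

/-- **Row BLC** (medium). `v = (v_j)`, `v_j ∈ ℂ^M`. `S = {v | v_j ∈ S_ij for all i, j}`. The map `v ↦ (v_j mod S_ij)_{ij}` has the kernel `S`, so
`D M - dim S ≤ ∑ (M - dim S_ij) ≤ ∑ k_ij`. On `S`: `‖A v‖² = ∑_i ‖∑_j B_ij v_j‖² ≤ ∑_i (∑_j t ‖v_j‖)² ≤ D · D t² ∑ ‖v_j‖²`. -/
def BLC_stmt : Prop := ∀ (D M : ℕ) (A : Matrix (Fin D × Fin M) (Fin D × Fin M) ℂ)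
  (B : Fin D → Fin D → Matrix (Fin M) (Fin M) ℂ) (t : ℝ) (k : Fin D → Fin D → ℕ), 0 ≤ t →
  (∀ x y, A x y = B x.1 y.1 x.2 y.2) → (∀ i j, Cod (B i j) t (k i j)) →
  Cod A (D * t) (∑ i, ∑ j, k i j)

/-- **Row SQC** (short). The same subspace: `‖B v‖² = re ⟪Bᴴ B v, v⟫ ≤ t² ‖v‖²`. The second clause: monotonicity. -/
def SQC_stmt : Prop := ∀ (n : Type) [Fintype n] [DecidableEq n] (B : Matrix n n ℂ) (t t' : ℝ) (k k' : ℕ),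
  0 ≤ t → (Cod (B.conjTranspose * B) (t ^ 2) k → Cod B t k) ∧ (Cod B t k → t ≤ t' → k ≤ k' → Cod B t' k')

/-- **Row TRB** (medium), from GMA, SPV. With `ι` of `StdR`: for `v` with all `∑_k v i k = 0` write `v i = ι (u i)`;
`rep (permRep (lift σ)) a (ι u) = ι (R1 (rs Φ σ) a u)` (`isoU_apply`), so the sums are `‖GM u‖²` for the vector `u = (u i)` of
`EuclideanSpace ℂ (Fin D × Fin (N-1))`. Third clause: `UnB` for the representation `isoU (N-1) ∘ rs Φ σ` bounds the quadratic form of the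
Hermitian matrix `GM` by `K`, so all `|ev i| ≤ K` (SPV; or directly the operator norm of a self-adjoint operator). -/
def TRB_stmt : Prop := ∀ (D N : ℕ) (Φ : Equiv.Perm (Fin N) →* Matrix.unitaryGroup (Fin (N - 1)) ℂ)
  (P : Mat D F2) (σ : Fin 2 → Equiv.Perm (Fin N)) (r : ℝ), StdR Φ → 0 ≤ r →
  (gn (rs Φ σ) P ≤ r → RepZ (FreeGroup.lift σ) P r) ∧ (SA P → UnB P r → gn (rs Φ σ) P ≤ r)

/-! ### Traces -/

/-- **Row BTR** (short-medium), from GMA. `Q = aeval (K⁻¹ • P) h`: `trace (GM Q) = ∑_w (∑_i Q_ii)(w) (fx (σ w) - 1)` (`StdR.tr`), and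
`b(w) = (1/D) ∑_i Q_ii(w)`, so `np = tau N b (lift σ) / N` (only real parts; the factors `fx - 1` are real). The mean: `SCS_avg` of
`Pool/Agent/helper62/RP/SCS.lean`. Supports: `(K⁻¹ • P)^i` has support in the ball of radius `q i` (as in `MRD` of SpecM). -/
def BTR_stmt : Prop := ∀ (D N : ℕ) (Φ : Equiv.Perm (Fin N) →* Matrix.unitaryGroup (Fin (N - 1)) ℂ)
  (P : Mat D F2) (K : ℝ) (h : ℝ[X]), StdR Φ → 1 ≤ D → 1 ≤ N →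
  (∀ σ, np Φ K P h σ = tau N (bT K P h) (FreeGroup.lift σ) / N) ∧
  av (np Φ K P h) = TT N (bT K P h) / N ∧
  ∀ q : ℕ, Sup P {w | w.norm ≤ q} → ∀ w ∈ (bT K P h).coeff.support, w.norm ≤ q * h.natDegree

/-- **Row TNP** (medium), from GMA, SPV, TRB. As row NTP of SpecM (Pool/Agent/helper62/QX/NTP.lean, copy it): `A = GM (rs Φ σ) P` is
Hermitian with norm `≤ K` (TRB), eigenvalues `ev` (SPV), their number is `D (N - 1) ≤ D N`; `np h = (1/(DN)) ∑ h(ev_i/K)`. `np` of the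
constant `1` is `D (N-1)/(D N)`. Last clause: `yp = (1/(DN)) ∑ G(θ_i)`, `cos θ_i = ev_i/K`, `0 ≤ G ≤ 1`, `G(θ_i) = 0` if
`|ev_i| ≤ K cos b`, so `yp ≤ #{|ev_i| > K cos b}/(DN)`, use the last clause of SPV. If `gn > K cos a` some `|ev_i| > K cos a` and `G(θ_i) = 1`. -/
def TNP_stmt : Prop := ∀ (D N : ℕ) (Φ : Equiv.Perm (Fin N) →* Matrix.unitaryGroup (Fin (N - 1)) ℂ)
  (P : Mat D F2) (K : ℝ) (σ : Fin 2 → Equiv.Perm (Fin N)), StdR Φ → 1 ≤ D → 1 ≤ N → 0 < K → SA P → UnB P K →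
  (∀ (h : ℝ[X]) (m M : ℝ), m ≤ 0 → 0 ≤ M → (∀ t, |t| ≤ 1 → m ≤ h.eval t ∧ h.eval t ≤ M) →
    m ≤ np Φ K P h σ ∧ np Φ K P h σ ≤ M) ∧
  np Φ K P (1 : ℝ[X]) σ = 1 - 1 / (N : ℝ) ∧
  ∀ (g : ℕ → ℝ) (a b : ℝ), Summable (fun j => |g j|) → 0 < a → a < b → b ≤ Real.pi / 2 →
    (∀ θ : ℝ, 0 ≤ ∑' j, g j * Real.cos (j * θ) ∧ ∑' j, g j * Real.cos (j * θ) ≤ 1 ∧
      (b ≤ θ → θ ≤ Real.pi - b → ∑' j, g j * Real.cos (j * θ) = 0) ∧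
      (0 ≤ θ → θ ≤ a → ∑' j, g j * Real.cos (j * θ) = 1) ∧
      (Real.pi - a ≤ θ → θ ≤ Real.pi → ∑' j, g j * Real.cos (j * θ) = 1)) →
    0 ≤ yp Φ K P g σ ∧
    (∀ p k : ℕ, 1 ≤ p → Cod (GM (rs Φ σ) P ^ p) ((K * Real.cos b) ^ p) k →
      yp Φ K P g σ ≤ k / (D * N : ℝ)) ∧
    (K * Real.cos a < gn (rs Φ σ) P → 1 / (D * N : ℝ) ≤ yp Φ K P g σ)

/-! ### Expected number of outliers -/

/-- **Row EXO** (medium), from GMA, SPV, SQC. As SCS (Pool/Agent/helper62/RP/SCS.lean, copy it): `K = max (∑ ‖a w‖) r`, `h` of `A_TST` for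
`(regNorm a, r, K)` and `s = Nat.log 4 N`, `b = pev h a`; the file shows `TT N b ≤ ε` for large `N`. For every `σ`:
`tau N b (lift σ) = trace (R1 (rs Φ σ) b)` (GMA, `StdR.tr`) `= ∑ h(ev_i)` (SPV, `R1 ρ (pev h a) = aeval (R1 ρ a) h`), all
`|ev_i| ≤ ‖R1‖ ≤ K` (triangle inequality, `ρ w` unitary), so it is at least the number `k` of `|ev_i| > r`; `Cod (R1 a) r k` by SPV.
`k σ := #{i | r < |ev i|}` and `∑_σ k σ ≤ ∑_σ tau = (N!)² TT N b` (`SCS_avg`). -/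
def EXO_stmt : Prop := ∀ (Φ : ∀ N : ℕ, Equiv.Perm (Fin N) →* Matrix.unitaryGroup (Fin (N - 1)) ℂ),
  (∀ N, 1 ≤ N → StdR (Φ N)) → ∀ (a : MonoidAlgebra ℂ F2) (r ε : ℝ), adj a = a → regNorm a < r → 0 < ε →
  ∀ᶠ N : ℕ in atTop, ∃ k : (Fin 2 → Equiv.Perm (Fin N)) → ℕ,
    (∀ σ, Cod (R1 (rs (Φ N) σ) a) r (k σ)) ∧ av (fun σ => (k σ : ℝ)) ≤ ε

/-- **Row MXO** (medium), from GMA, BLC, SQC, EXO. Choose `p ≥ 1` with `D (r + δ/2)^p ≤ (r + δ)^p`, `t = (r + δ/2)^p`,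
`e_ij = (P^p)_ij`. `RegB (P^p) (r^p)` by induction (`MAT_mulapp`), so `regNorm e_ij ≤ r^p < t` (test `RegB` with the vector `u` at the place
`j`; `A_RNB`, third clause). `a_ij = adj e_ij * e_ij` is self-adjoint, `regNorm a_ij ≤ (regNorm e_ij)² < t²` (`A_ADJ`, `A_RNB`). EXO with
`r := t²`, `ε/D²` for every `(i, j)`: `k_ij`. `R1 a_ij = (R1 e_ij)ᴴ R1 e_ij`, so `Cod (R1 e_ij) t (k_ij σ)` (SQC), and by BLC
`Cod (GM (P^p)) (D t) (∑ k_ij σ)`; `GM (P^p) = (GM P)^p`, SQC (second clause). -/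
def MXO_stmt : Prop := ∀ (Φ : ∀ N : ℕ, Equiv.Perm (Fin N) →* Matrix.unitaryGroup (Fin (N - 1)) ℂ),
  (∀ N, 1 ≤ N → StdR (Φ N)) → ∀ (D : ℕ) (P : Mat D F2) (r δ : ℝ), 1 ≤ D → RegB P r → 0 ≤ r → 0 < δ →
  ∃ p : ℕ, 1 ≤ p ∧ ∀ ε : ℝ, 0 < ε → ∀ᶠ N : ℕ in atTop, ∃ k : (Fin 2 → Equiv.Perm (Fin N)) → ℕ,
    (∀ σ, Cod (GM (rs (Φ N) σ) P ^ p) ((r + δ) ^ p) (k σ)) ∧ av (fun σ => (k σ : ℝ)) ≤ ε

/-! ### Expansion -/

/-- **Row TEX** (medium; one variable). `A_POL`: `r` with `r(1/N) = g(1/N) (TT N b / N)` for `N ≥ L`, `g = gl L`,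
degree `≤ D₁ = 2L+1`. For `N ≥ L`: `0 ≤ g(1/N) ≤ 1`, so `|r(1/N)| ≤ 1`, also `|r(0)| ≤ 1` (continuity). `A_DIS` with `M = 8 D₁²`, `H = 1`:
`|r(1/N) - r(0) - r'(0)/N| ≤ 1024 D₁^8/N²` for `N ≥ M`; at `N = M`: `|r'(0)| ≤ M (2 + 16 D₁⁴)`, i.e. `O(L^6)`. With `S = L(L-1)/N`:
`1 - S ≤ g(1/N) ≤ 1 - S + S²` (`S ≤ 1`; products of `2L` numbers `1 - j/N`; upper bound e.g. from `g ≤ exp(-S)`), `g ≥ 1/2`. `φ₀ = r(0)`,
`φ₁ = r'(0) + L(L-1) r(0)`. For `N ≥ M`: `TT/N - φ₀ - φ₁/N = (r(1/N) - g (φ₀ + φ₁/N))/g`, numerator `O(L^8/N²)`. For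
`N < M` (`M ≤ 72 L²`) both sides are trivial: left-hand side `≤ 2 + |φ₁|/N`. -/
def TEX_stmt : Prop := ∃ C₀ : ℝ, 1 ≤ C₀ ∧ ∀ (b : MonoidAlgebra ℂ F2) (L : ℕ), 1 ≤ L →
  (∀ w ∈ b.coeff.support, w.norm ≤ L) → (∀ N : ℕ, 1 ≤ N → |TT N b| ≤ N) →
  ∃ φ₀ φ₁ : ℝ, |φ₀| ≤ C₀ * (L : ℝ) ^ 8 ∧ |φ₁| ≤ C₀ * (L : ℝ) ^ 8 ∧
    ∀ N : ℕ, 1 ≤ N → |TT N b / N - φ₀ - φ₁ / N| ≤ C₀ * (L : ℝ) ^ 8 / (N : ℝ) ^ 2

/-- **Row TGX** (medium), from TEX, BTR, TNP. As row GEX of SpecM (Pool/Agent/helper62/QX/GEX.lean). For `j ≥ 1`: `b = bT K P T_j`, `L = q j`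
(`T_j` has degree `≤ j`), `|np| ≤ 1` (TNP, `|T_j| ≤ 1` on `[-1,1]`), so `|TT N b| = N |av np| ≤ N`; TEX gives `φ^{(j)}_0, φ^{(j)}_1`. `j = 0`: `np = 1 - 1/N`.
`av (yp) = ∑ g_j av(np T_j)` (finite sum over `σ`, `∑ |g_j| < ∞`), `ν_i = ∑_j g_j φ^{(j)}_i`, convergent as `|g_j| ≤ 2 (20/((b-a) j))^10` and
`|φ^{(j)}_i| ≤ C₀ (q j)^8`. The remainder is `≤ ∑_{j≥1} 2 (20/((b-a) j))^10 C₀ (q j)^8/N²`. -/
def TGX_stmt : Prop := ∃ C : ℝ, 1 ≤ C ∧ ∀ (Φ : ∀ N : ℕ, Equiv.Perm (Fin N) →* Matrix.unitaryGroup (Fin (N - 1)) ℂ),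
  (∀ N, 1 ≤ N → StdR (Φ N)) → ∀ (D q : ℕ) (P : Mat D F2) (K a b : ℝ) (g : ℕ → ℝ), 1 ≤ D → 1 ≤ q → 0 < K → SA P →
  UnB P K → Sup P {w | w.norm ≤ q} → 0 < a → a < b → |g 0| ≤ 1 →
  (∀ j : ℕ, 1 ≤ j → |g j| ≤ 2 * (2 * ((10 : ℕ) : ℝ) / ((b - a) * j)) ^ 10) →
  ∃ ν₀ ν₁ : ℝ, ∀ N : ℕ, 1 ≤ N →
    |av (yp (Φ N) K P g) - ν₀ - ν₁ / N| ≤ C * (q : ℝ) ^ 8 * (1 / (b - a)) ^ 10 / (N : ℝ) ^ 2

/-- **Row TVN** (short). `e N → ν₀`, so `ν₀ = 0`; then `N e N → ν₁`, so `ν₁ = 0`. -/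
def TVN_stmt : Prop := ∀ (e : ℕ → ℝ) (ν₀ ν₁ B : ℝ), (∀ N : ℕ, 1 ≤ N → |e N - ν₀ - ν₁ / N| ≤ B / (N : ℝ) ^ 2) →
  (∀ ε : ℝ, 0 < ε → ∀ᶠ N : ℕ in atTop, |e N| ≤ ε / N) → ∀ N : ℕ, 1 ≤ N → |e N| ≤ B / (N : ℝ) ^ 2

/-! ### The theorem -/

/-- **SCP** (target). Strong convergence of random permutations with matrix coefficients of polynomial size. -/
def SCP_stmt : Prop := ∃ s : ℝ, 0 < s ∧ ∃ N₀ : ℕ, 1 ≤ N₀ ∧ ∀ N : ℕ, N₀ ≤ N →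
  ∀ (D q : ℕ) (P : Mat D F2) (K r δ : ℝ), 1 ≤ D → SA P → Sup P {w | w.norm ≤ q} → UnB P K → RegB P r →
    0 ≤ r → 0 < δ → 0 < K → (q : ℝ) ≤ (N : ℝ) ^ s → K / δ ≤ (N : ℝ) ^ s → (D : ℝ) ≤ (N : ℝ) ^ s →
    ((badM N P (r + δ)).card : ℝ) ≤ (N : ℝ) ^ (-s) * (N.factorial : ℝ) ^ 2

/-- **Row TAS** (medium; assembly), from TSF, SDR, TRB, TNP, MXO, TGX, TVN. As SCA of SpecM (Pool/Agent/helper62/QX/SCA.lean). `s = 1/40`. We may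
assume `q ≥ 1` and `r + δ < K` (TRB). `cos a = (r+δ)/K`, `cos b = (r+δ/2)/K`, `b - a ≥ δ/(2K)`, `g` of TSF for the order `10`. `e N = av (yp)`: MXO with
`δ/2`, `ε D` and TNP give `0 ≤ e N ≤ ε/N` for large `N`, so by TGX, TVN `e N ≤ B/N²` for all `N ≥ 1`, `B = C q^8 (b-a)^{-10}`. For a bad `σ`:
`1/(DN) ≤ yp σ` (TNP, TRB), so `#bad/(N!)² ≤ D N e N ≤ D C q^8 (2 N^s)^{10}/N ≤ 1024 C N^{19 s - 1} ≤ N^{-s}` for large `N`. -/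
def TAS_stmt : Prop := SCP_stmt

end Pool.Agent.QX
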