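import Pool.Agent.helper62.QX.AllT

set_option autoImplicit false

/-!
# MP_07c750, project QX, theorem T1: the full statement of the hand-in, from `DET`
-/

open scoped MatrixGroups ContDiff Topology UpperHalfPlane
open UpperHalfPlane MeasureTheory Filter Set
open Pool.Agent.QU Pool.Agent.RP

namespace Pool.Agent.QX

theorem T_top (hDET : DET_stmt) : ∃ c : ℝ, 0 < c ∧ ∀ Γ : Subgroup SL(2, ℝ), SurfaceGroup Γ →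
    (∀ g : ℕ, 2 ≤ g → Nonempty (Γ ≃* SurfGrp g) →
      ∃ σ : ∀ n : ℕ, Γ →* Equiv.Perm (Fin n), (∀ n i j, ∃ γ, σ n γ i = j) ∧
        StrongLimPerm (fun n => n) σ ∧
        ∀ h : ℍ → ℝ, IsTest Γ h → ∀ ε : ℝ, 0 < ε → ∀ᶠ n in atTop,
          ∀ (μ : ℝ) (φ : ℍ → Fin n → ℂ), 0 ≤ μ → μ ≤ (n : ℝ) ^ c →
            IsNewEigenfunction (σ n) μ φ → Equidist Γ h (fun z => ∑ i, ‖φ z i‖ ^ 2) ε) ∧
    (∀ (N : ℕ → ℕ) (σ : ∀ n, Γ →* Equiv.Perm (Fin (N n))), StrongLimPerm N σ → NewQUE Γ N σ) ∧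
    ∀ (V : ℕ → Type) [∀ n, NormedAddCommGroup (V n)] [∀ n, InnerProductSpace ℂ (V n)]
      [∀ n, CompleteSpace (V n)] (ρ : ∀ n, Γ →* (V n ≃ₗᵢ[ℂ] V n)), StrongLim V ρ →
      ∃ b : ℕ → ℝ, Tendsto b atTop atTop ∧ ∀ h : ℍ → ℝ, IsTest Γ h → ∀ ε : ℝ, 0 < ε →
        ∀ᶠ n in atTop, ∀ (μ : ℝ) (φ : ℍ → V n), 0 ≤ μ → μ ≤ b n → IsEigensection (ρ n) μ φ →
          Equidist Γ h (fun z => ‖φ z‖ ^ 2) ε := by
  obtain ⟨c, hc, hT⟩ := T_FCV hDET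
  refine ⟨c, hc, fun Γ hΓ => ?_⟩
  obtain ⟨-, h2, h3⟩ := TOP_all Γ hΓ
  exact ⟨fun g hg he => hT Γ hΓ g hg he, h2, h3⟩

end Pool.Agent.QX
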